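import Pool.Agent.Q7.RL.Orders
import Pool.Agent.Q7.GR.Min

/-!
# Functional equations of real L-functions, and the data given by the orders alone

`TwistData.model` replaces the functions of a `TwistData` by powers of `s - s₀` with the same orders; so
all statements about orders can be proved for such data. For these the functional equations at the
centre only say that the orders of contragredient characters are equal.
-/

set_option autoImplicit false
set_option linter.unusedSectionVars false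

namespace Pool.Agent.Q7.RL

open Filter Topology Pool.Agent.H541R3.ART Pool.Agent.W446.AS Pool.Agent.Q7.SZ Pool.Agent.Q7.TZ
  Pool.Agent.H302R2 Pool.Agent.H302R3

theorem order_pow (s₀ : ℂ) (n : ℤ) :
    MeromorphicAt (fun s : ℂ => (s - s₀) ^ n) s₀ ∧
      meromorphicOrderAt (fun s : ℂ => (s - s₀) ^ n) s₀ = (n : WithTop ℤ) := by
  have h : MeromorphicAt (fun s : ℂ => (s - s₀) ^ n) s₀ :=
    ((MeromorphicAt.id s₀).sub (MeromorphicAt.const s₀ s₀)).zpow n
  refine ⟨h, (meromorphicOrderAt_eq_int_iff h).2 ⟨fun _ => 1, analyticAt_const, one_ne_zero, ?_⟩⟩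
  filter_upwards with s
  rw [smul_eq_mul, mul_one]

section
variable {G : Type} [Group G] [Finite G] {s₀ : ℂ}

open scoped Classical in
/-- the multiplicity of `ψ` in the restriction of `χ` -/
noncomputable def mul (H : Subgroup G) (ψ : H →* ℂˣ) (χ : G → ℂ) : ℕ :=
  if h : χ ∈ Irr G then (exists_mult h H ψ).choose else 0

theorem mul_spec (H : Subgroup G) (ψ : H →* ℂˣ) (χ : G → ℂ) (hχ : χ ∈ Irr G) :
    ∑ᶠ h : H, χ h * (((ψ h)⁻¹ : ℂˣ) : ℂ) = (mul H ψ χ : ℂ) * (Nat.card H : ℂ) := by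
  unfold mul
  rw [dif_pos hχ]
  exact (exists_mult hχ H ψ).choose_spec

/-- the data with the same orders given by powers of `s - s₀` -/
noncomputable def _root_.Pool.Agent.Q7.SZ.TwistData.model (A : TwistData G s₀) :
    TwistData G s₀ where
  L χ s := (s - s₀) ^ A.ord χ
  Lin H ψ s := ∏ᶠ χ ∈ Irr G, ((s - s₀) ^ A.ord χ) ^ mul H ψ χ
  mero χ _ := by
    obtain ⟨h1, h2⟩ := order_pow s₀ (A.ord χ)
    exact ⟨h1, by rw [h2]; exact WithTop.coe_ne_top⟩
  hol H ψ hH := by
    have h1 := A.hol H ψ hH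
    rw [A.order_Lin H ψ (mul H ψ) (mul_spec H ψ)] at h1
    have e : (fun s : ℂ => ∏ᶠ χ ∈ Irr G, ((s - s₀) ^ A.ord χ) ^ mul H ψ χ) =
        fun s => ∏ χ ∈ irrF G, ((fun s : ℂ => (s - s₀) ^ A.ord χ) ^ mul H ψ χ) s := by
      funext s
      rw [finprod_mem_eq_finite_toFinset_prod _ (irr_finite (G := G))]
      rfl
    rw [e, meromorphicOrderAt_fun_prod (fun χ _ => (order_pow s₀ (A.ord χ)).1.pow _)]
    have h2 : ∑ χ ∈ irrF G, meromorphicOrderAt ((fun s : ℂ => (s - s₀) ^ A.ord χ) ^ mul H ψ χ) s₀ =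
        ((∑ χ ∈ irrF G, (mul H ψ χ : ℤ) * A.ord χ : ℤ) : WithTop ℤ) := by
      rw [WithTop.coe_sum]
      refine Finset.sum_congr rfl fun χ _ => ?_
      rw [meromorphicOrderAt_pow (order_pow s₀ (A.ord χ)).1, (order_pow s₀ (A.ord χ)).2]
      push_cast
      rfl
    rw [h2]
    exact h1
  induce H ψ m hm := by
    filter_upwards with s
    refine finprod_mem_congr rfl fun χ hχ => ?_
    have h1 := hm χ hχ
    rw [mul_spec H ψ χ hχ] at h1
    have h2 : (Nat.card H : ℂ) ≠ 0 := by exact_mod_cast Nat.card_pos.ne'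
    have h3 : (mul H ψ χ : ℂ) = (m χ : ℂ) := mul_right_cancel₀ h2 h1
    have h4 : mul H ψ χ = m χ := by exact_mod_cast h3
    rw [h4]

theorem model_L (A : TwistData G s₀) {χ : G → ℂ} (hχ : χ ∈ Irr G) :
    meromorphicOrderAt (A.model.L χ) s₀ = meromorphicOrderAt (A.L χ) s₀ := by
  rw [← A.coe_ord hχ]
  exact (order_pow s₀ (A.ord χ)).2

theorem model_ord (A : TwistData G s₀) {χ : G → ℂ} (hχ : χ ∈ Irr G) :
    A.model.ord χ = A.ord χ := by
  have h := model_L A hχ
  rw [← A.coe_ord hχ, ← A.model.coe_ord hχ] at h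
  exact_mod_cast h

theorem model_Lin (A : TwistData G s₀) (H : Subgroup G) (ψ : H →* ℂˣ) :
    meromorphicOrderAt (A.model.Lin H ψ) s₀ = meromorphicOrderAt (A.Lin H ψ) s₀ := by
  rw [A.order_Lin H ψ (mul H ψ) (mul_spec H ψ), A.model.order_Lin H ψ (mul H ψ) (mul_spec H ψ)]
  congr 1
  refine Finset.sum_congr rfl fun χ hχ => ?_
  rw [model_ord A (mem_irrF.1 hχ)]

theorem model_rankHolds (A : TwistData G s₀) {k : Type} [Field k] {V : Type} [AddCommGroup V]
    [Module k V] [FiniteDimensional k V] (ρ : Representation k G V) (H : Subgroup G) :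
    RankHolds A.model ρ H ↔ RankHolds A ρ H := by
  unfold RankHolds
  rw [model_Lin]

/-- the functional equation of the data given by powers -/
noncomputable def model_funEq (A : TwistData G 1)
    (h1 : ∀ χ ∈ Irr G, A.ord (fun g => χ g⁻¹) = A.ord χ)
    (h2 : ∀ χ ∈ Irr G, Sy χ → Even (A.ord χ)) : FunEq A.model where
  gam _ _ := 1
  gam_an _ _ := ⟨analyticAt_const, one_ne_zero⟩
  W χ := (-1) ^ A.ord χ
  W_ne χ _ := zpow_ne_zero _ (neg_ne_zero.2 one_ne_zero)
  fe χ hχ := by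
    filter_upwards with s
    change 1 * (s - 1) ^ A.ord χ = (-1) ^ A.ord χ *
      (1 * (2 - s - 1) ^ A.ord (fun g => χ g⁻¹))
    rw [h1 χ hχ, one_mul, one_mul, ← mul_zpow]
    congr 1
    ring
  W_symp χ hχ hs := (h2 χ hχ hs).neg_one_zpow

end

/-- the sign of a functional equation -/
theorem sign_eq {f : ℂ → ℂ} (hm : MeromorphicAt f 1) {n : ℤ}
    (hord : meromorphicOrderAt f 1 = (n : WithTop ℤ)) {w : ℂ}
    (hfe : f =ᶠ[𝓝[≠] 1] fun s => w * f (2 - s)) : w * (-1) ^ n = 1 := by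
  obtain ⟨g, hg, hg0, hfg⟩ := (meromorphicOrderAt_eq_int_iff hm).mp hord
  have hcont : Tendsto (fun s : ℂ => 2 - s) (𝓝 1) (𝓝 1) := by
    have h1 : ContinuousAt (fun s : ℂ => 2 - s) 1 := by fun_prop
    have h2 : (2 : ℂ) - 1 = 1 := by norm_num
    have h3 := h1.tendsto
    rw [h2] at h3
    exact h3
  have hcont' : Tendsto (fun s : ℂ => 2 - s) (𝓝[≠] 1) (𝓝[≠] 1) := by
    rw [tendsto_nhdsWithin_iff]
    refine ⟨hcont.mono_left nhdsWithin_le_nhds, ?_⟩
    filter_upwards [self_mem_nhdsWithin] with s h1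
    intro h2
    apply h1
    have h3 : (2 : ℂ) - s = 1 := h2
    change s = 1
    linear_combination -h3
  have hrel : ∀ᶠ s in 𝓝[≠] (1 : ℂ), g s = w * (-1) ^ n * g (2 - s) := by
    filter_upwards [hfe, hfg, hcont'.eventually hfg, self_mem_nhdsWithin] with s h1 h2 h3 h4
    rw [h2, h3, smul_eq_mul, smul_eq_mul] at h1
    have h6 : s - 1 ≠ 0 := sub_ne_zero.mpr h4
    have h7 : (2 - s - 1 : ℂ) = (-1) * (s - 1) := by ring
    rw [h7, mul_zpow] at h1
    have h8 : (s - 1) ^ n * g s = (s - 1) ^ n * (w * (-1) ^ n * g (2 - s)) := by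
      rw [h1]; ring
    exact mul_left_cancel₀ (zpow_ne_zero n h6) h8
  have hlim1 : Tendsto g (𝓝[≠] 1) (𝓝 (g 1)) := hg.continuousAt.tendsto.mono_left nhdsWithin_le_nhds
  have hlim2 : Tendsto (fun s => w * (-1) ^ n * g (2 - s)) (𝓝[≠] 1) (𝓝 (w * (-1) ^ n * g 1)) := by
    refine Tendsto.const_mul _ ?_
    exact hg.continuousAt.tendsto.comp (hcont.mono_left nhdsWithin_le_nhds)
  have hlim3 : Tendsto g (𝓝[≠] 1) (𝓝 (w * (-1) ^ n * g 1)) := by
    refine hlim2.congr' ?_
    filter_upwards [hrel] with s h1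
    exact h1.symm
  have heq := tendsto_nhds_unique hlim1 hlim3
  exact (mul_right_cancel₀ hg0 (by rw [one_mul]; exact heq)).symm

section
open NumberField Pool.Agent.Q92.RT Pool.Agent.Q5.BR Pool.Agent.H341R2.EC Pool.Agent.W353.NF

variable {K : Type} [Field K] [NumberField K] (M : Type) [Field M] [NumberField M] [Algebra K M]

/-- The functional equations of the functions `L(E ⊗ χ, s)` at the centre `s = 1`: with
`Λ(χ, s) = γ_χ(s) L(E ⊗ χ, s)` the equation is `Λ(χ, s) = w(χ) Λ(χ̄, 2 - s)`. The function `γ_χ`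
(`N ^ (s/2) ((2π)^(-s) Γ(s))^(dim)` times the omitted Euler factors) is analytic and nonzero at `1`,
the root numbers `w(χ)` are nonzero, and equal to `1` for symplectic characters `χ`. -/
structure FunctionalEquations (W : WeierstrassCurve (𝓞 K)) where
  gam : ((M ≃ₐ[K] M) → ℂ) → ℂ → ℂ
  gam_spec : ∀ χ ∈ Irr (M ≃ₐ[K] M), AnalyticAt ℂ (gam χ) 1 ∧ gam χ 1 ≠ 0
  root : ((M ≃ₐ[K] M) → ℂ) → ℂ
  root_ne : ∀ χ ∈ Irr (M ≃ₐ[K] M), root χ ≠ 0
  equation : ∀ χ ∈ Irr (M ≃ₐ[K] M),
    (fun s => gam χ s * cont (twistedL M W χ) s) =ᶠ[𝓝[≠] 1]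
      fun s => root χ * (gam (fun g => χ g⁻¹) (2 - s) *
        cont (twistedL M W fun g => χ g⁻¹) (2 - s))
  symplectic : ∀ χ ∈ Irr (M ≃ₐ[K] M), Sy χ → root χ = 1

variable {M}

namespace FunctionalEquations

variable {W : WeierstrassCurve (𝓞 K)} (F : FunctionalEquations M W) (a : Automorphic M W 1)

include F in
theorem ord_inv {χ : (M ≃ₐ[K] M) → ℂ} (hχ : χ ∈ Irr (M ≃ₐ[K] M)) :
    (TwistData.ofCurve a).ord (fun g => χ g⁻¹) = (TwistData.ofCurve a).ord χ := by
  have hχ' := Pool.Agent.Q7.DB.irr_inv hχ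
  have h1 : meromorphicOrderAt (cont (twistedL M W χ)) 1 =
      meromorphicOrderAt (cont (twistedL M W fun g => χ g⁻¹)) 1 := by
    rw [← order_gam (f := cont (twistedL M W χ)) (F.gam_spec χ hχ).1 (F.gam_spec χ hχ).2,
      meromorphicOrderAt_congr (F.equation χ hχ)]
    rw [order_gam (g := fun _ => F.root χ)
      (f := fun s => F.gam (fun g => χ g⁻¹) (2 - s) *
        cont (twistedL M W fun g => χ g⁻¹) (2 - s)) analyticAt_const (F.root_ne χ hχ)]
    rw [order_refl (fun s => F.gam (fun g => χ g⁻¹) s * cont (twistedL M W fun g => χ g⁻¹) s)]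
    exact order_gam (F.gam_spec _ hχ').1 (F.gam_spec _ hχ').2
  change meromorphicOrderAt ((TwistData.ofCurve a).L χ) 1 =
      meromorphicOrderAt ((TwistData.ofCurve a).L (fun g => χ g⁻¹)) 1 at h1
  rw [← TwistData.coe_ord _ hχ, ← TwistData.coe_ord _ hχ'] at h1
  exact_mod_cast h1.symm

include F in
theorem sign {χ : (M ≃ₐ[K] M) → ℂ} (hχ : χ ∈ Irr (M ≃ₐ[K] M)) (hreal : ∀ g, χ g⁻¹ = χ g) :
    F.root χ * (-1) ^ (TwistData.ofCurve a).ord χ = 1 := by
  have hfe := F.equation χ hχ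
  rw [show (fun g => χ g⁻¹) = χ from funext hreal] at hfe
  refine sign_eq (f := fun s => F.gam χ s * cont (twistedL M W χ) s) ?_ ?_ hfe
  · exact ((F.gam_spec χ hχ).1.meromorphicAt).mul ((TwistData.ofCurve a).mero χ hχ).1
  · rw [TwistData.coe_ord _ hχ]
    exact order_gam (F.gam_spec χ hχ).1 (F.gam_spec χ hχ).2

theorem neg_one_zpow_cases (n : ℤ) : (Even n ∧ ((-1 : ℂ)) ^ n = 1) ∨ (Odd n ∧ ((-1 : ℂ)) ^ n = -1) := by
  rcases Int.even_or_odd n with h | h
  · exact Or.inl ⟨h, h.neg_one_zpow⟩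
  · exact Or.inr ⟨h, h.neg_one_zpow⟩

include F in
theorem even {χ : (M ≃ₐ[K] M) → ℂ} (hχ : χ ∈ Irr (M ≃ₐ[K] M)) (hreal : ∀ g, χ g⁻¹ = χ g)
    (hw : F.root χ = 1) : Even ((TwistData.ofCurve a).ord χ) := by
  have h := F.sign a hχ hreal
  rw [hw, one_mul] at h
  rcases neg_one_zpow_cases ((TwistData.ofCurve a).ord χ) with h1 | h1
  · exact h1.1
  · rw [h1.2] at h
    norm_num at h

include F in
theorem odd {χ : (M ≃ₐ[K] M) → ℂ} (hχ : χ ∈ Irr (M ≃ₐ[K] M)) (hreal : ∀ g, χ g⁻¹ = χ g)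
    (hw : F.root χ = -1) : Odd ((TwistData.ofCurve a).ord χ) := by
  have h := F.sign a hχ hreal
  rw [hw] at h
  rcases neg_one_zpow_cases ((TwistData.ofCurve a).ord χ) with h1 | h1
  · rw [h1.2] at h
    norm_num at h
  · exact h1.1

/-- the functional equation of the data given by powers -/
noncomputable def model : FunEq (TwistData.ofCurve a).model :=
  model_funEq _ (fun _ hχ => F.ord_inv a hχ)
    (fun χ hχ hs => F.even a hχ hs.1 (F.symplectic χ hχ hs))

theorem model_W {χ : (M ≃ₐ[K] M) → ℂ} (hχ : χ ∈ Irr (M ≃ₐ[K] M)) (hreal : ∀ g, χ g⁻¹ = χ g)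
    (hw : F.root χ = -1) : (F.model a).W χ = -1 := by
  have h := F.odd a hχ hreal hw
  exact h.neg_one_zpow

end FunctionalEquations

end

end Pool.Agent.Q7.RL

namespace Pool.Agent.Q7.RL

open NumberField IsDedekindDomain Filter Topology Pool.Agent.Q5.BR Pool.Agent.H541R3.ART
  Pool.Agent.W446.AS Pool.Agent.Q92.RT Pool.Agent.Q7.SZ Pool.Agent.H341R2.EC TensorProduct
  Pool.Agent.W353.NF

open scoped Classical

section
variable {K : Type} [Field K] [NumberField K] {M : Type} [Field M] [NumberField M] [Algebra K M]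
  [IsGalois K M] {E : WeierstrassCurve K} {W : WeierstrassCurve (𝓞 K)} {s₀ : ℂ}
  {n : ((M ≃ₐ[K] M) → ℂ) → ℤ} {r : IntermediateField K M → ℤ}

theorem Orders.mlin (h : Orders E W s₀ n r) (hE : E.IsElliptic) (hW : IsModel E W)
    (hs : 1 ≤ s₀.re) (a : Automorphic M W s₀) (F : IntermediateField K M) :
    meromorphicOrderAt ((TwistData.ofCurve a).model.Lin F.fixingSubgroup 1) s₀ =
      ((r F : ℤ) : WithTop ℤ) := by
  rw [model_Lin]
  exact h.lin hE hW hs a F

theorem Orders.mbot (h : Orders E W s₀ n r) (hE : E.IsElliptic) (hW : IsModel E W)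
    (hs : 1 ≤ s₀.re) (a : Automorphic M W s₀) :
    meromorphicOrderAt ((TwistData.ofCurve a).model.Lin ⊥ 1) s₀ = ((r ⊤ : ℤ) : WithTop ℤ) := by
  rw [model_Lin]
  exact h.bot hE hW hs a

theorem Orders.mord (h : Orders E W s₀ n r) (a : Automorphic M W s₀) {χ : (M ≃ₐ[K] M) → ℂ}
    (hχ : χ ∈ Irr (M ≃ₐ[K] M)) : (TwistData.ofCurve a).model.ord χ = n χ := by
  rw [model_ord _ hχ]
  exact h.ord a hχ

theorem Orders.mL (h : Orders E W s₀ n r) (a : Automorphic M W s₀) {χ : (M ≃ₐ[K] M) → ℂ}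
    (hχ : χ ∈ Irr (M ≃ₐ[K] M)) :
    meromorphicOrderAt ((TwistData.ofCurve a).model.L χ) s₀ = ((n χ : ℤ) : WithTop ℤ) := by
  rw [model_L _ hχ]
  exact h.irr a hχ

/-- the rank over `M` -/
theorem rk_mw_bot [FiniteDimensional ℚ (ℚ ⊗[ℤ] (E.baseChange M).toAffine.Point)] :
    Pool.Agent.Q7.SZ.rk (mw E M) ⊥ = rank (E.map (algebraMap K M)) := by
  rw [rk_bot]
  exact finrank_rat _

theorem Orders.rankHolds (h : Orders E W 1 n r) (hE : E.IsElliptic) (hW : IsModel E W)
    (a : Automorphic M W 1)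
    [FiniteDimensional ℚ (ℚ ⊗[ℤ] (E.baseChange M).toAffine.Point)] (F : IntermediateField K M) :
    RankHolds (TwistData.ofCurve a).model (mw E M) F.fixingSubgroup ↔
      r F = rank (E.map (algebraMap K F)) := by
  unfold RankHolds
  rw [h.mlin hE hW (by simp) a F, rk_mw F]
  exact WithTop.coe_eq_coe

theorem Orders.rankHolds_all (h : Orders E W 1 n r) (hE : E.IsElliptic) (hW : IsModel E W)
    (a : Automorphic M W 1)
    [FiniteDimensional ℚ (ℚ ⊗[ℤ] (E.baseChange M).toAffine.Point)] :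
    (∀ H, RankHolds (TwistData.ofCurve a).model (mw E M) H) ↔
      ∀ F : IntermediateField K M, r F = rank (E.map (algebraMap K F)) := by
  rw [forall_subgroup (M := M)]
  exact forall_congr' fun F => h.rankHolds hE hW a F

/-- the field of a normal subgroup -/
theorem exists_galois (N : Subgroup (M ≃ₐ[K] M)) [N.Normal] :
    ∃ L : IntermediateField K M, IsGalois K L ∧ L.fixingSubgroup = N :=
  ⟨IntermediateField.fixedField N, inferInstance, IntermediateField.fixingSubgroup_fixedField N⟩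

theorem finrank_eq_index (L : IntermediateField K M) :
    Module.finrank K L = L.fixingSubgroup.index := by
  have h1 : Nat.card L.fixingSubgroup = Module.finrank L M :=
    IsGalois.card_fixingSubgroup_eq_finrank L
  have h2 : Nat.card (M ≃ₐ[K] M) = Module.finrank K M := IsGalois.card_aut_eq_finrank K M
  have h3 := Module.finrank_mul_finrank K L M
  have h4 := L.fixingSubgroup.index_mul_card
  rw [h1, h2, ← h3] at h4
  have h5 : 0 < Module.finrank L M := Module.finrank_pos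
  exact (Nat.eq_of_mul_eq_mul_right h5 h4).symm

end

end Pool.Agent.Q7.RL
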