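import Mathlib
import Pool.Agent.Q7.GR.Min

/-! The statement on abstract data used for the real L-functions. -/

set_option autoImplicit false

open Pool.Agent.H541R3.ART Pool.Agent.H302R2 Pool.Agent.H302R3 Pool.Agent.W446.AS
  Pool.Agent.Q7.TZ Pool.Agent.Q7.SZ Pool.Agent.Q7.GR

namespace Pool.Agent.Q7.RL

theorem abs_min
    (G : Type) [Group G] [Finite G] (A : TwistData G 1) (F : FunEq A) (N : Subgroup G) [N.Normal]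
    (hc : Group.IsSolvable N ∨ ∀ g : G, ∃ p k : ℕ, p.Prime ∧ g ^ p ^ k ∈ N)
    (hol : ∀ χ ∈ Irr G, (∀ x ∈ N, χ x = χ 1) → 0 ≤ meromorphicOrderAt (A.L χ) 1)
    (S : Finset (G → ℂ)) (hS : ∀ χ ∈ S, χ ∈ Irr G ∧ (∀ x ∈ N, χ x = χ 1) ∧
      (∀ g, χ g⁻¹ = χ g) ∧ F.W χ = -1) (r : ℤ)
    (hr : meromorphicOrderAt (A.Lin ⊥ 1) 1 = (r : WithTop ℤ))
    (hmin : (r : ℝ) ≤ ∑ χ ∈ S, (χ 1).re) :
    (r : ℂ) = ∑ χ ∈ S, χ 1 ∧ (∀ χ ∈ S, meromorphicOrderAt (A.L χ) 1 = 1) ∧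
    (∀ χ ∈ Irr G, χ ∉ S → meromorphicOrderAt (A.L χ) 1 = 0) ∧
    ∀ (V : Type) [AddCommGroup V] [Module ℂ V] [FiniteDimensional ℂ V]
      (ρ : Representation ℂ G V), (∀ χ ∈ S, pr ρ.character χ ≠ 0) →
      (∀ χ ∈ Irr G, ∃ m : ℕ, pr ρ.character χ = m ∧ meromorphicOrderAt (A.L χ) 1 ≤ m) ∧
      (∀ H : Subgroup G, meromorphicOrderAt (A.Lin H 1) 1 ≤ ((rk ρ H : ℤ) : WithTop ℤ)) ∧
      ((∀ χ ∈ Irr G, ∃ m : ℕ, pr ρ.character χ = m ∧ meromorphicOrderAt (A.L χ) 1 = m) ↔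
        (Module.finrank ℂ V : ℤ) ≤ r) ∧
      ((∀ H, RankHolds A ρ H) ↔ (Module.finrank ℂ V : ℤ) ≤ r) := by
  classical
  obtain ⟨h1, h2, h3⟩ := minimal F hc hol S hS hr hmin
  refine ⟨h1, fun χ hχ => ?_, fun χ hχ hχS => ?_, fun V _ _ _ ρ hocc => ?_⟩
  · rw [← A.coe_ord (hS χ hχ).1, h2 χ hχ]
    rfl
  · rw [← A.coe_ord hχ, h3 χ hχ hχS]
    rfl
  · obtain ⟨e1, e2, e3, e4⟩ := minimal_dim (fun χ hχ => (hS χ hχ).1) h1 h2 h3 ρ hocc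
    refine ⟨fun χ hχ => ?_, e2, ?_, e4⟩
    · obtain ⟨m, hm, hm2⟩ := e1 χ hχ
      refine ⟨m, hm, ?_⟩
      rw [← A.coe_ord hχ]
      exact_mod_cast hm2
    · rw [← e3]
      constructor
      · intro h χ hχ
        obtain ⟨m, hm, hm2⟩ := h χ hχ
        rw [← A.coe_ord hχ] at hm2
        have h4 : A.ord χ = (m : ℤ) := by exact_mod_cast hm2
        rw [hm, h4]
        simp
      · intro h χ hχ
        obtain ⟨m, hm, -⟩ := e1 χ hχ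
        refine ⟨m, hm, ?_⟩
        have h4 := h χ hχ
        rw [hm] at h4
        have h5 : A.ord χ = (m : ℤ) := by exact_mod_cast h4.symm
        rw [← A.coe_ord hχ, h5]
        rfl

end Pool.Agent.Q7.RL
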