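import Pool.Agent.Q7.RL.Ord

/-! The L-function is holomorphic for `Re s > 3/2`; entire continuations. -/

set_option autoImplicit false
set_option linter.unusedSectionVars false

namespace Pool.Agent.Q7.RL

open NumberField IsDedekindDomain Filter Topology Pool.Agent.H341R2 Pool.Agent.H341R2.EC
  Pool.Agent.H921R2.TatePole Pool.Agent.W353.NF Pool.Agent.Q5.BR Pool.Agent.H541R3.ART
  Pool.Agent.W446.AS Pool.Agent.Q92.RT Pool.Agent.Q7.SZ
open Pool.Agent.TH322.BC.Edge (MinimalModels)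

open Pool.Agent.TH322.BC.Edge renaming LSeries → LS

section
variable {F : Type} [Field F] [NumberField F]

/-- the bound for the factor -/
noncomputable def bd (V : HeightOneSpectrum (𝓞 F) → WeierstrassCurve (𝓞 F)) (σ : ℝ)
    (w : HeightOneSpectrum (𝓞 F)) : ℝ :=
  |(nm w : ℝ) - aff (red w (V w))| * (nm w : ℝ) ^ (-σ) + (nm w : ℝ) ^ (1 - 2 * σ)

theorem bd_nonneg (V : HeightOneSpectrum (𝓞 F) → WeierstrassCurve (𝓞 F)) (σ : ℝ)
    (w : HeightOneSpectrum (𝓞 F)) : 0 ≤ bd V σ w := by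
  unfold bd
  positivity

theorem bd_anti (V : HeightOneSpectrum (𝓞 F) → WeierstrassCurve (𝓞 F)) {σ τ : ℝ} (h : σ ≤ τ)
    (w : HeightOneSpectrum (𝓞 F)) : bd V τ w ≤ bd V σ w := by
  have hq := one_le_nm w
  unfold bd
  exact add_le_add (mul_le_mul_of_nonneg_left
    (Real.rpow_le_rpow_of_exponent_le hq (by linarith)) (abs_nonneg _))
    (Real.rpow_le_rpow_of_exponent_le hq (by linarith))

theorem bd_lt_one (V : HeightOneSpectrum (𝓞 F) → WeierstrassCurve (𝓞 F))
    (w : HeightOneSpectrum (𝓞 F)) {σ : ℝ} (hs : 3 / 2 < σ) : bd V σ w < 1 := by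
  unfold bd
  have hq := one_le_nm w
  have hq2 : (2 : ℝ) ≤ nm w := by exact_mod_cast two_le_nm w
  have hq0 : (0 : ℝ) < nm w := by linarith
  have h1 : |(nm w : ℝ) - aff (red w (V w))| ≤ nm w := by
    have h2 := Pool.Agent.H341R2.EC.aff_le (red w (V w))
    rw [card_v] at h2
    have h3 : (aff (red w (V w)) : ℝ) ≤ 2 * nm w := by exact_mod_cast h2
    have h4 : (0 : ℝ) ≤ aff (red w (V w)) := Nat.cast_nonneg _
    rw [abs_le]
    constructor <;> linarith
  set x : ℝ := (nm w : ℝ) ^ (-(1 / 2) : ℝ) with hx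
  have hx0 : 0 < x := Real.rpow_pos_of_pos hq0 _
  have hx2 : x ^ 2 = (nm w : ℝ)⁻¹ := by
    rw [hx, ← Real.rpow_natCast, ← Real.rpow_mul hq0.le]
    norm_num
    rw [Real.rpow_neg_one]
  have hx2' : x ^ 2 ≤ 1 / 2 := by
    rw [hx2, one_div]
    exact inv_anti₀ (by norm_num) hq2
  have h5 : (nm w : ℝ) * (nm w : ℝ) ^ (-σ) ≤ x := by
    have h6 : (nm w : ℝ) * (nm w : ℝ) ^ (-σ) = (nm w : ℝ) ^ (1 + -σ) := by
      rw [Real.rpow_add hq0, Real.rpow_one]
    rw [h6, hx]
    exact Real.rpow_le_rpow_of_exponent_le hq (by linarith)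
  have h7 : (nm w : ℝ) ^ (1 - 2 * σ) ≤ x ^ 4 := by
    have h8 : x ^ 4 = (nm w : ℝ) ^ (-2 : ℝ) := by
      rw [hx, ← Real.rpow_natCast, ← Real.rpow_mul hq0.le]
      norm_num
    rw [h8]
    exact Real.rpow_le_rpow_of_exponent_le hq (by linarith)
  have h9 : |(nm w : ℝ) - aff (red w (V w))| * (nm w : ℝ) ^ (-σ) ≤ x :=
    (mul_le_mul_of_nonneg_right h1 (by positivity)).trans h5
  have hx34 : x < 3 / 4 := by nlinarith
  have hx4 : x ^ 4 ≤ 1 / 4 := by nlinarith [sq_nonneg x]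
  linarith

theorem bd_summable {E : WeierstrassCurve F} (hE : E.IsElliptic)
    {V : HeightOneSpectrum (𝓞 F) → WeierstrassCurve (𝓞 F)} (hV : MinimalModels E V) {σ : ℝ}
    (hs : 3 / 2 < σ) : Summable (bd V σ) := by
  obtain ⟨W, hW⟩ := exists_model E
  have h0 : 6 * W.Δ ≠ 0 := mul_ne_zero (by norm_num) (model_Δ hE hW)
  refine Summable.of_norm_bounded_eventually
    (g := fun w => 3 * (nm w : ℝ) ^ (-(σ - 1 / 2)))
    ((nm_summable (K := F) (x := σ - 1 / 2) (by linarith)).mul_left 3) ?_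
  filter_upwards [(finite_mem h0).compl_mem_cofinite] with w hw
  obtain ⟨h6, _, hVw⟩ := good_of_model hV hW (w := w) hw
  rw [Real.norm_of_nonneg (bd_nonneg V σ w)]
  unfold bd
  have hq := one_le_nm w
  have hq0 : (0 : ℝ) < nm w := by linarith
  have h6' : (6 : 𝓞 F ⧸ w.asIdeal) ≠ 0 := by
    have := mk_ne h6
    rwa [map_ofNat] at this
  have hΔ : (red w (V w)).Δ ≠ 0 := by
    unfold red
    rw [WeierstrassCurve.map_Δ]
    exact mk_ne hVw
  have h1 := hasse h6' hΔ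
  rw [card_v] at h1
  have h2 : 2 * Real.sqrt (nm w) * (nm w : ℝ) ^ (-σ) = 2 * (nm w : ℝ) ^ (-(σ - 1 / 2)) := by
    rw [Real.sqrt_eq_rpow, mul_assoc, ← Real.rpow_add hq0]
    congr 2
    ring
  have h3 : (nm w : ℝ) ^ (1 - 2 * σ) ≤ (nm w : ℝ) ^ (-(σ - 1 / 2)) :=
    Real.rpow_le_rpow_of_exponent_le hq (by linarith)
  have h4 := mul_le_mul_of_nonneg_right h1 (by positivity : (0 : ℝ) ≤ (nm w : ℝ) ^ (-σ))
  rw [h2] at h4
  linarith

theorem norm_ell_le (V : HeightOneSpectrum (𝓞 F) → WeierstrassCurve (𝓞 F))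
    (w : HeightOneSpectrum (𝓞 F)) {σ : ℝ} (hσ : 3 / 2 < σ) {s : ℂ} (hs : σ ≤ s.re) :
    ‖ell V w s‖ ≤ bd V σ w ^ 2 * (1 - bd V σ w)⁻¹ / 2 + bd V σ w := by
  have h1 : ‖zz V w s‖ ≤ bd V σ w := (norm_zz_le V w s).trans (bd_anti V hs w)
  have h2 := bd_lt_one V w hσ
  have h3 : ‖-zz V w s‖ < 1 := by rw [norm_neg]; exact h1.trans_lt h2
  have h4 := Complex.norm_log_one_add_le h3
  rw [norm_neg] at h4
  unfold ell
  rw [norm_neg, sub_eq_add_neg]
  refine h4.trans ?_
  have h5 : (1 - ‖zz V w s‖)⁻¹ ≤ (1 - bd V σ w)⁻¹ := inv_anti₀ (by linarith) (by linarith)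
  have h6 : ‖zz V w s‖ ^ 2 ≤ bd V σ w ^ 2 := by gcongr
  have h7 : ‖zz V w s‖ ^ 2 * (1 - ‖zz V w s‖)⁻¹ ≤ bd V σ w ^ 2 * (1 - bd V σ w)⁻¹ :=
    mul_le_mul h6 h5 (inv_nonneg.2 (by linarith)) (by positivity)
  linarith

theorem summable_bound {E : WeierstrassCurve F} (hE : E.IsElliptic)
    {V : HeightOneSpectrum (𝓞 F) → WeierstrassCurve (𝓞 F)} (hV : MinimalModels E V) {σ : ℝ}
    (hs : 3 / 2 < σ) :
    Summable fun w => bd V σ w ^ 2 * (1 - bd V σ w)⁻¹ / 2 + bd V σ w := by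
  have h0 := bd_summable hE hV hs
  refine Summable.of_norm_bounded_eventually (g := fun w => 2 * bd V σ w) (h0.mul_left 2) ?_
  have h1 := h0.tendsto_cofinite_zero.eventually (gt_mem_nhds (by norm_num : (0 : ℝ) < 1 / 2))
  filter_upwards [h1] with w hw
  have h2 := bd_nonneg V σ w
  have h3 := bd_lt_one V w hs
  have h4 : 0 < 1 - bd V σ w := by linarith
  have h5 : 0 ≤ bd V σ w ^ 2 * (1 - bd V σ w)⁻¹ / 2 + bd V σ w := by positivity
  rw [Real.norm_of_nonneg h5]
  have h6 : (1 - bd V σ w)⁻¹ ≤ 2 := by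
    rw [inv_le_comm₀ h4 (by norm_num)]
    linarith
  have h7 : bd V σ w ^ 2 * (1 - bd V σ w)⁻¹ ≤ bd V σ w ^ 2 * 2 :=
    mul_le_mul_of_nonneg_left h6 (by positivity)
  nlinarith

theorem LS_differentiable {E : WeierstrassCurve F} (hE : E.IsElliptic)
    {V : HeightOneSpectrum (𝓞 F) → WeierstrassCurve (𝓞 F)} (hV : MinimalModels E V) :
    DifferentiableOn ℂ (LS V) {s : ℂ | 3 / 2 < s.re} := by
  intro s hs
  have hs' : 3 / 2 < s.re := hs
  obtain ⟨σ, h1, h2⟩ := exists_between hs'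
  have hopen : IsOpen {z : ℂ | σ < z.re} := isOpen_lt continuous_const Complex.continuous_re
  have h3 : DifferentiableOn ℂ (fun z => ∑' w, ell V w z) {z : ℂ | σ < z.re} := by
    refine Complex.differentiableOn_tsum_of_summable_norm (summable_bound hE hV h1) ?_ hopen ?_
    · intro w z hz
      have hz' : σ < z.re := hz
      have h4 : ‖zz V w z‖ < 1 := zz_lt_one V w (by linarith)
      refine DifferentiableAt.differentiableWithinAt ?_
      unfold ell
      refine DifferentiableAt.neg (DifferentiableAt.clog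
        ((differentiableAt_const 1).sub (differentiable_zz V w z)) ?_)
      rw [Complex.mem_slitPlane_iff]
      left
      have h5 : |(zz V w z).re| ≤ ‖zz V w z‖ := Complex.abs_re_le_norm _
      have h6 := (abs_le.1 h5).2
      rw [Complex.sub_re, Complex.one_re]
      linarith
    · intro w z hz
      exact norm_ell_le V w h1 (le_of_lt hz)
  have h4 : DifferentiableOn ℂ (fun z => Complex.exp (∑' w, ell V w z)) {z : ℂ | σ < z.re} := h3.cexp
  have h5 : DifferentiableOn ℂ (LS V) {z : ℂ | σ < z.re} := by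
    refine h4.congr fun z hz => ?_
    have hz' : σ < z.re := hz
    exact LSeries_exp hE hV (by linarith)
  exact (h5.differentiableAt (hopen.mem_nhds h2)).differentiableWithinAt

/-- a meromorphic continuation without poles gives an entire continuation -/
theorem entire_of_order {E : WeierstrassCurve F} (hE : E.IsElliptic)
    {V : HeightOneSpectrum (𝓞 F) → WeierstrassCurve (𝓞 F)} (hV : MinimalModels E V)
    {f : ℂ → ℂ} (hf : Continues f (LS V)) :
    ∃ g : ℂ → ℂ, Continues g (LS V) ∧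
      ∀ s, 0 ≤ meromorphicOrderAt f s → AnalyticAt ℂ g s := by
  have hopen : IsOpen {z : ℂ | 3 / 2 < z.re} := isOpen_lt continuous_const Complex.continuous_re
  refine ⟨toMeromorphicNFOn f Set.univ, ⟨?_, ?_⟩, ?_⟩
  · exact (meromorphicNFOn_toMeromorphicNFOn f Set.univ).meromorphicOn
  · intro s hs
    have h1 : AnalyticAt ℂ f s := by
      have h2 : DifferentiableOn ℂ f {z : ℂ | 3 / 2 < z.re} :=
        (LS_differentiable hE hV).congr fun z hz => hf.2 z hz
      exact h2.analyticAt (hopen.mem_nhds hs)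
    rw [toMeromorphicNFOn_eq_toMeromorphicNFAt hf.1 (Set.mem_univ s),
      toMeromorphicNFAt_eq_self.2 h1.meromorphicNFAt]
    exact hf.2 s hs
  · intro s hs
    have h1 := meromorphicNFOn_toMeromorphicNFOn f Set.univ (Set.mem_univ s)
    rw [← h1.meromorphicOrderAt_nonneg_iff_analyticAt,
      meromorphicOrderAt_toMeromorphicNFOn hf.1 (Set.mem_univ s)]
    exact hs

end

end Pool.Agent.Q7.RL
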