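import Pool.Agent.Q7.RL.Model
import Pool.Agent.Q7.DC.Omg
import Pool.Agent.Q7.DC.Pps

/-!
# Values of real L-functions at `s = 1`
-/

set_option autoImplicit false
set_option linter.unusedSectionVars false

namespace Pool.Agent.Q7.RL

open NumberField IsDedekindDomain Filter Topology Pool.Agent.Q5.BR Pool.Agent.H541R3.ART
  Pool.Agent.W446.AS Pool.Agent.Q92.RT Pool.Agent.Q7.SZ Pool.Agent.Q7.TZ Pool.Agent.Q7.GR
  Pool.Agent.Q7.DC Pool.Agent.H302R2 Pool.Agent.W353.NF Pool.Agent.H341R2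
  Pool.Agent.H341R2.EC Pool.Agent.H921R2.TatePole
open Pool.Agent.TH322.BC.Edge (MinimalModels)

open Pool.Agent.TH322.BC.Edge renaming LSeries → LS

/-- The function `g`, given for `Re s > 3/2`, has a meromorphic continuation to `ℂ`, which has no pole
at `s = 1`, and its value there is `c`. -/
def Value (g : ℂ → ℂ) (c : ℂ) : Prop :=
  ∃ f : ℂ → ℂ, Continues f g ∧ Tendsto f (𝓝[≠] 1) (𝓝 c)

/-- `v` is the value `L(E, 1)` of the complete L-function of the elliptic curve `E` over the number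
field `F` (the Euler product with the right factors at all primes). -/
def LValue {F : Type} [Field F] [NumberField F] (E : WeierstrassCurve F) (c : ℂ) : Prop :=
  ∀ V : HeightOneSpectrum (𝓞 F) → WeierstrassCurve (𝓞 F), MinimalModels E V → Value (LS V) c

/-- The values `v` and `v'` at `s = 1` of (the continuations of) `g` and `g'` exist, and
`σ (v / c) = v' / c'`. -/
def Equivariant (σ : ℂ ≃+* ℂ) (g : ℂ → ℂ) (c : ℂ) (g' : ℂ → ℂ) (c' : ℂ) : Prop :=
  ∃ v v' : ℂ, Value g v ∧ Value g' v' ∧ σ (v / c) = v' / c'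

theorem value_iff {g f : ℂ → ℂ} {c : ℂ} (hf : Continues f g) :
    Value g c ↔ Tendsto f (𝓝[≠] 1) (𝓝 c) := by
  constructor
  · rintro ⟨f', hf', h⟩
    exact h.congr' (hf'.eventuallyEq hf (fun _ _ => rfl) 1)
  · intro h
    exact ⟨f, hf, h⟩

theorem equivariant_iff {σ : ℂ ≃+* ℂ} {g g' : ℂ → ℂ} {c c' : ℂ} (hg : ∃ f, Continues f g)
    (hg' : ∃ f, Continues f g') :
    Equivariant σ g c g' c' ↔ Agree σ 1 (cont g) c (cont g') c' := by
  unfold Equivariant Agree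
  constructor
  · rintro ⟨v, v', h1, h2, h3⟩
    exact ⟨v, v', (value_iff (cont_spec hg)).1 h1, (value_iff (cont_spec hg')).1 h2, h3⟩
  · rintro ⟨v, v', h1, h2, h3⟩
    exact ⟨v, v', (value_iff (cont_spec hg)).2 h1, (value_iff (cont_spec hg')).2 h2, h3⟩

/-- Numbers `per χ ≠ 0` for the irreducible characters `χ` of a finite group `G`, and their products
`ind H ψ = ∏ per χ ^ ⟨χ|_H, ψ⟩` for the characters induced from linear characters `ψ` of subgroups. -/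
structure PeriodFamily (G : Type) [Group G] where
  per : (G → ℂ) → ℂ
  ind : (H : Subgroup G) → (H →* ℂˣ) → ℂ
  per_ne : ∀ χ ∈ Irr G, per χ ≠ 0
  induce : ∀ (H : Subgroup G) (ψ : H →* ℂˣ) (m : (G → ℂ) → ℕ),
    (∀ χ ∈ Irr G, ∑ᶠ h : H, χ h * (((ψ h)⁻¹ : ℂˣ) : ℂ) = (m χ : ℂ) * (Nat.card H : ℂ)) →
    ind H ψ = ∏ᶠ χ ∈ Irr G, per χ ^ m χ

/-- periods of a family of functions -/
def PeriodFamily.periods {G : Type} [Group G] (P : PeriodFamily G) {s₀ : ℂ} (A : TwistData G s₀) :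
    Periods A where
  per := P.per
  perLin := P.ind
  per_ne := P.per_ne
  induce := P.induce

section
variable {K : Type} [Field K] [NumberField K] {M : Type} [Field M] [NumberField M] [Algebra K M]

theorem ex_ind {W : WeierstrassCurve (𝓞 K)} {s₀ : ℂ} (a : Automorphic M W s₀)
    (H : Subgroup (M ≃ₐ[K] M)) (ψ : H →* ℂˣ) :
    ∃ f, Continues f (twistedL M W (induced H ψ)) :=
  exists_continues a.mero H ψ

theorem ex_irr {W : WeierstrassCurve (𝓞 K)} {s₀ : ℂ} (a : Automorphic M W s₀)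
    {χ : (M ≃ₐ[K] M) → ℂ} (hχ : χ ∈ Irr (M ≃ₐ[K] M)) :
    ∃ f, Continues f (twistedL M W χ) :=
  a.mero χ hχ

/-- the Euler factors left out are rational at `s = 1` -/
theorem zz_rat {F : Type} [Field F] [NumberField F]
    (V : HeightOneSpectrum (𝓞 F) → WeierstrassCurve (𝓞 F)) (w : HeightOneSpectrum (𝓞 F)) :
    ∃ q : ℚ, zz V w 1 = (q : ℂ) := by
  classical
  unfold zz
  have h : (nm w : ℂ) ≠ 0 := by
    have := two_le_nm w
    exact_mod_cast (by omega : nm w ≠ 0)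
  have e : (1 : ℂ) - 2 * 1 = -1 := by norm_num
  rw [e, Complex.cpow_neg, Complex.cpow_one]
  refine ⟨(((nm w : ℤ) - (aff (red w (V w)) : ℤ) : ℤ) : ℚ) * ((nm w : ℕ) : ℚ)⁻¹ -
    (if (V w).Δ ∈ w.asIdeal then (0 : ℚ) else 1) * ((nm w : ℕ) : ℚ)⁻¹, ?_⟩
  split_ifs <;> push_cast <;> ring

theorem excl_rat {F : Type} [Field F] [NumberField F] [Algebra K F] [Algebra F M]
    [IsScalarTower K F M] [IsGalois K M] {W : WeierstrassCurve (𝓞 K)} (hW : W.Δ ≠ 0)
    (V : HeightOneSpectrum (𝓞 F) → WeierstrassCurve (𝓞 F)) :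
    ∃ q : ℚ, q ≠ 0 ∧ excl M W V 1 = (q : ℂ) := by
  classical
  choose z hz using zz_rat V
  have h0 := (excl_at (M := M) hW V (s₀ := 1) (by simp)).2
  have e : excl M W V 1 = ((∏ v ∈ (bad_finite (M := M) hW).toFinset,
      ∏ w ∈ above F v, (1 - z w)⁻¹ : ℚ) : ℂ) := by
    rw [excl_eq hW V 1]
    push_cast
    refine Finset.prod_congr rfl fun v _ => Finset.prod_congr rfl fun w _ => ?_
    rw [hz w]
  refine ⟨_, fun h => h0 ?_, e⟩
  rw [e, h, Rat.cast_zero]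

end

/-! ### Central values: only the orders enter in the functional equations -/

section
variable {G : Type} [Group G] [Finite G] {Z : Subgroup G}

theorem omega_nonneg' (A : TwistData G 1) (F : FunEq A.model) (hZ : Z ≤ Subgroup.center G)
    {ω : Z →* ℂˣ} (hω : ω ^ 2 = 1) {r : ℕ} (hr2 : r ≤ 2)
    (hr : meromorphicOrderAt (A.Lin Z ω) 1 = (r : WithTop ℤ)) {χ : G → ℂ} (hχ : χ ∈ Irr G)
    (h : HasC ω χ) : 0 ≤ A.ord χ := by
  rw [← model_ord A hχ]
  exact omega_nonneg A.model F hZ hω hr2 (by rw [model_Lin]; exact hr) hχ h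

theorem omega_expand' (A : TwistData G 1) (F : FunEq A.model) (hZ : Z ≤ Subgroup.center G)
    {ω : Z →* ℂˣ} (hω : ω ^ 2 = 1) {r : ℕ} (hr2 : r ≤ 2)
    (hr : meromorphicOrderAt (A.Lin Z ω) 1 = (r : WithTop ℤ)) {χ : G → ℂ} (hχ : χ ∈ Irr G)
    (h : HasC ω χ) (h0 : A.ord χ = 0) : ∃ l : List ((Σ H : Subgroup G, (H →* ℂˣ)) × ℤ),
      (∀ t ∈ l, Z ≤ t.1.1 ∧ Group.IsSolvable t.1.1 ∧ Match ω t.1.2 ∧
        meromorphicOrderAt (A.Lin t.1.1 t.1.2) 1 = 0) ∧
      Finsupp.single χ (1 : ℤ) = (l.map fun t => t.2 • wv t.1.1 t.1.2).sum := by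
  obtain ⟨l, h1, h2⟩ := omega_expand A.model F hZ hω hr2 (by rw [model_Lin]; exact hr) hχ h
    (by rw [model_ord A hχ]; exact h0)
  refine ⟨l, fun t ht => ?_, h2⟩
  obtain ⟨i1, i2, i3, i4⟩ := h1 t ht
  rw [model_Lin] at i4
  exact ⟨i1, i2, i3, i4⟩

theorem omega_values' (A : TwistData G 1) (F : FunEq A.model) (P : Periods A)
    (hZ : Z ≤ Subgroup.center G) {ω : Z →* ℂˣ} (hω : ω ^ 2 = 1) {r : ℕ} (hr2 : r ≤ 2)
    (hr : meromorphicOrderAt (A.Lin Z ω) 1 = (r : WithTop ℤ)) (u : Subgroup G → ℂˣ)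
    (hu : ∀ (σ : ℂ ≃+* ℂ) (H : Subgroup G), Z ≤ H → Group.IsSolvable H → ∀ ψ : H →* ℂˣ,
      Match ω ψ → Agree σ 1 (A.Lin H ψ) (P.perLin H ψ * (u H : ℂ))
        (A.Lin H (galL σ ψ)) (P.perLin H (galL σ ψ) * (u H : ℂ))) :
    ∀ χ ∈ Irr G, HasC ω χ → ∃ v ∈ Subgroup.closure {x : ℂˣ | ∃ H : Subgroup G, Z ≤ H ∧
      Group.IsSolvable H ∧ x = u H}, ∀ σ : ℂ ≃+* ℂ,
        Agree σ 1 (A.L χ) (P.per χ * (v : ℂ)) (A.L fun g => σ (χ g))
          (P.per (fun g => σ (χ g)) * (v : ℂ)) := by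
  classical
  intro χ hχ hC
  have hnn := omega_nonneg' A F hZ hω hr2 hr hχ hC
  have hr' : meromorphicOrderAt ((part A hZ ω).Lin ⊥ 1) 1 = (r : WithTop ℤ) := by
    rw [part_bot A hZ ω, hr]
  have hord : ∀ σ : ℂ ≃+* ℂ, A.ord (fun g => σ (χ g)) = A.ord χ := by
    intro σ
    have h1 := ord_gal (theta_gal2 (part A hZ ω) hZ hr2 hr' σ fun H hZH hs ψ => ?_) hχ
    · rw [part_ord A hZ ω hχ, if_pos hC, part_ord A hZ ω (irr_gal σ hχ),
        if_pos (hasC_gal hω σ hC)] at h1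
      exact h1
    · by_cases hm : Match ω ψ
      · rw [part_order_match A hZ ω hZH hm,
          part_order_match A hZ ω hZH ((match_gal hω σ ψ).mpr hm)]
        exact (hu σ H hZH hs ψ hm).zero_iff (mul_ne_zero (perLin_ne A P H ψ) (Units.ne_zero _))
          (mul_ne_zero (perLin_ne A P H (galL σ ψ)) (Units.ne_zero _)) (lin_mero A H ψ)
          (lin_mero A H (galL σ ψ))
      · rw [part_order_nomatch A hZ ω hm,
          part_order_nomatch A hZ ω (fun h => hm ((match_gal hω σ ψ).mp h))]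
  by_cases h0 : A.ord χ = 0
  · obtain ⟨l, h1, h2⟩ := omega_expand' A F hZ hω hr2 hr hχ hC h0
    refine ⟨(l.map fun t => u t.1.1 ^ t.2).prod, ?_, fun σ => ?_⟩
    · refine Subgroup.list_prod_mem _ ?_
      intro x hx
      obtain ⟨t, ht, rfl⟩ := List.mem_map.mp hx
      obtain ⟨i1, i2, i3, i4⟩ := h1 t ht
      have hx : u t.1.1 ∈ {x : ℂˣ | ∃ H : Subgroup G, Z ≤ H ∧
          Group.IsSolvable H ∧ x = u H} := ⟨t.1.1, i1, i2, rfl⟩
      exact Subgroup.zpow_mem _ (Subgroup.subset_closure hx) _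
    · refine agree_of_expand A P σ hχ h2 (fun t ht => (h1 t ht).2.2.2) (fun t => u t.1.1) ?_
      intro t ht
      obtain ⟨i1, i2, i3, i4⟩ := h1 t ht
      exact hu σ t.1.1 i1 i2 t.1.2 i3
  · refine ⟨1, one_mem _, fun σ => ?_⟩
    have i1 := irr_gal σ hχ
    have i2 : A.ord (fun g => σ (χ g)) ≠ 0 := by rw [hord]; exact h0
    have i3 : 0 < A.ord (fun g => σ (χ g)) := by
      rw [hord]
      exact lt_of_le_of_ne hnn (Ne.symm h0)
    refine ⟨0, 0, tendsto_pos A hχ (lt_of_le_of_ne hnn (Ne.symm h0)), tendsto_pos A i1 i3, ?_⟩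
    rw [zero_div, zero_div, map_zero]

end

end Pool.Agent.Q7.RL
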