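import Pool.Agent.Q92.RT.Stm

/-! The Euler factors of `L(E/F, s)` at the points with `Re s ≥ 1`. -/

set_option autoImplicit false
set_option linter.unusedSectionVars false

namespace Pool.Agent.Q7.RL

open NumberField IsDedekindDomain Filter Pool.Agent.H341R2 Pool.Agent.H341R2.EC Polynomial
  Pool.Agent.H921R2.TatePole Pool.Agent.Q5.BR Pool.Agent.Q92.RT

section
variable {k : Type} [Field k] [Finite k]

/-- the double point of a fibre of a singular cubic -/
theorem exists_fold_of_singular (V : WeierstrassCurve k) (hΔ : V.Δ = 0) :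
    ∃ x y : k, y ^ 2 + V.a₁ * x * y + V.a₃ * y =
      x ^ 3 + V.a₂ * x ^ 2 + V.a₄ * x + V.a₆ ∧ 2 * y + V.a₁ * x + V.a₃ = 0 := by
  classical
  have := Fintype.ofFinite k
  by_cases h2 : ringChar k = 2
  · have hc : CharP k 2 := ringChar.of_eq h2
    have h20 : (2 : k) = 0 := CharTwo.two_eq_zero
    have hsq : ∀ z : k, ∃ y : k, y ^ 2 = z := fun z => by
      obtain ⟨y, hy⟩ := FiniteField.isSquare_of_char_two h2 z
      exact ⟨y, by rw [hy, sq]⟩
    by_cases ha : V.a₁ = 0
    · have ha3 : V.a₃ = 0 := by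
        have h3 : V.Δ = V.a₃ ^ 4 := by
          simp only [WeierstrassCurve.Δ, WeierstrassCurve.b₂, WeierstrassCurve.b₄,
            WeierstrassCurve.b₆, WeierstrassCurve.b₈, ha]
          linear_combination (-(8 : k) * V.a₄ ^ 3 * 4 - 14 * V.a₃ ^ 4 - 108 * V.a₃ ^ 2 * V.a₆ -
            216 * V.a₆ ^ 2 + 36 * V.a₂ * V.a₄ * V.a₃ ^ 2 + 144 * V.a₂ * V.a₄ * V.a₆ -
            8 * V.a₂ ^ 2 * (4 * V.a₂ * V.a₆ + V.a₂ * V.a₃ ^ 2 - V.a₄ ^ 2)) * h20
        rw [h3] at hΔ
        exact pow_eq_zero_iff (by norm_num) |>.1 hΔ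
      obtain ⟨y, hy⟩ := hsq V.a₆
      refine ⟨0, y, ?_, ?_⟩
      · rw [ha, ha3, hy]
        ring
      · rw [ha, ha3]
        linear_combination y * h20
    · obtain ⟨x, hx⟩ : ∃ x : k, V.a₁ * x + V.a₃ = 0 :=
        ⟨-V.a₃ / V.a₁, by field_simp; ring⟩
      obtain ⟨y, hy⟩ := hsq (x ^ 3 + V.a₂ * x ^ 2 + V.a₄ * x + V.a₆)
      refine ⟨x, y, ?_, ?_⟩
      · rw [← hy]
        linear_combination y * hx
      · linear_combination hx + y * h20
  · have h20 : (2 : k) ≠ 0 := Ring.two_ne_zero h2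
    have h40 : (4 : k) ≠ 0 := by
      have : (4 : k) = 2 * 2 := by norm_num
      rw [this]
      exact mul_ne_zero h20 h20
    have ha : V.twoTorsionPolynomial.a ≠ 0 := h40
    have hdisc : V.twoTorsionPolynomial.discr = 0 := by
      rw [WeierstrassCurve.twoTorsionPolynomial_discr, hΔ, mul_zero]
    have hroot : ∃ x : k, V.twoTorsionPolynomial.toPoly.IsRoot x := by
      by_contra hno
      push Not at hno
      have hnat : V.twoTorsionPolynomial.toPoly.natDegree = 3 :=
        Cubic.natDegree_of_a_ne_zero ha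
      have hirr : Irreducible V.twoTorsionPolynomial.toPoly :=
        Polynomial.irreducible_of_degree_le_three_of_not_isRoot (by
          rw [hnat, Finset.mem_Icc]; omega) hno
      have hsep : V.twoTorsionPolynomial.toPoly.Separable := PerfectField.separable_of_irreducible hirr
      set L := AlgebraicClosure k
      have hsplit : (V.twoTorsionPolynomial.toPoly.map (algebraMap k L)).Splits :=
        IsAlgClosed.splits _
      refine (Cubic.discr_ne_zero_iff_roots_nodup ha hsplit).2 ?_ hdisc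
      rw [Cubic.map_roots]
      exact Polynomial.nodup_roots hsep.map
    obtain ⟨x, hx⟩ := hroot
    have h3 : 4 * x ^ 3 + V.b₂ * x ^ 2 + 2 * V.b₄ * x + V.b₆ = 0 := by
      have h4 : V.twoTorsionPolynomial.toPoly.eval x = 0 := hx
      simp only [Cubic.toPoly, WeierstrassCurve.twoTorsionPolynomial, eval_add, eval_mul, eval_C,
        eval_pow, eval_X] at h4
      exact h4
    refine ⟨x, -(V.a₁ * x + V.a₃) / 2, ?_, ?_⟩
    · simp only [WeierstrassCurve.b₂, WeierstrassCurve.b₄, WeierstrassCurve.b₆] at h3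
      field_simp
      linear_combination -h3
    · field_simp
      ring

/-- the points with a given abscissa -/
def fib (V : WeierstrassCurve k) (x : k) : Set k :=
  {y | y ^ 2 + V.a₁ * x * y + V.a₃ * y = x ^ 3 + V.a₂ * x ^ 2 + V.a₄ * x + V.a₆}

theorem fib_other {V : WeierstrassCurve k} {x y z : k} (hy : y ∈ fib V x) (hz : z ∈ fib V x)
    (hne : z ≠ y) : z = -y - V.a₁ * x - V.a₃ := by
  unfold fib at hy hz
  change y ^ 2 + V.a₁ * x * y + V.a₃ * y = x ^ 3 + V.a₂ * x ^ 2 + V.a₄ * x + V.a₆ at hy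
  change z ^ 2 + V.a₁ * x * z + V.a₃ * z = x ^ 3 + V.a₂ * x ^ 2 + V.a₄ * x + V.a₆ at hz
  have h : (z - y) * (z + y + V.a₁ * x + V.a₃) = 0 := by
    linear_combination hz - hy
  rcases mul_eq_zero.1 h with h | h
  · exact absurd (sub_eq_zero.1 h) hne
  · linear_combination h

theorem fib_le (V : WeierstrassCurve k) (x : k) : Nat.card (fib V x) ≤ 2 := by
  classical
  by_cases hemp : (fib V x).Nonempty
  · obtain ⟨y, hy⟩ := hemp
    have hsub : fib V x ⊆ (({y, -y - V.a₁ * x - V.a₃} : Finset k) : Set k) := by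
      intro z hz
      by_cases h : z = y
      · simp [h]
      · simp [fib_other hy hz h]
    calc Nat.card (fib V x) ≤ Nat.card (({y, -y - V.a₁ * x - V.a₃} : Finset k) : Set k) :=
          Nat.card_mono (Finset.finite_toSet _) hsub
      _ = ({y, -y - V.a₁ * x - V.a₃} : Finset k).card := by
          rw [Nat.card_eq_fintype_card]
          exact Fintype.card_coe _
      _ ≤ 2 := Finset.card_le_two
  · rw [Set.not_nonempty_iff_eq_empty] at hemp
    rw [hemp]
    simp

theorem fib_fold {V : WeierstrassCurve k} {x y : k} (hy : y ∈ fib V x)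
    (h : 2 * y + V.a₁ * x + V.a₃ = 0) : Nat.card (fib V x) ≤ 1 := by
  have hs : fib V x ⊆ {y} := by
    intro z hz
    by_contra hne
    rw [Set.mem_singleton_iff] at hne
    apply hne
    rw [fib_other hy hz hne]
    linear_combination -h
  calc Nat.card (fib V x) ≤ Nat.card ({y} : Set k) := Nat.card_mono (Set.finite_singleton y) hs
    _ = 1 := by simp

theorem aff_eq_sum [Fintype k] (V : WeierstrassCurve k) : aff V = ∑ x : k, Nat.card (fib V x) := by
  classical
  unfold aff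
  have e : {p : k × k // p.2 ^ 2 + V.a₁ * p.1 * p.2 + V.a₃ * p.2 =
      p.1 ^ 3 + V.a₂ * p.1 ^ 2 + V.a₄ * p.1 + V.a₆} ≃ Σ x : k, fib V x :=
    { toFun := fun p => ⟨p.1.1, ⟨p.1.2, p.2⟩⟩
      invFun := fun p => ⟨(p.1, p.2.1), p.2.2⟩
      left_inv := fun p => rfl
      right_inv := fun p => rfl }
  rw [Nat.card_congr e, Nat.card_sigma]

theorem aff_le (V : WeierstrassCurve k) : aff V ≤ 2 * Nat.card k := by
  classical
  have := Fintype.ofFinite k
  rw [aff_eq_sum]
  calc ∑ x : k, Nat.card (fib V x) ≤ ∑ _x : k, 2 := Finset.sum_le_sum fun x _ => fib_le V x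
    _ = 2 * Nat.card k := by
      rw [Finset.sum_const, Finset.card_univ, Nat.card_eq_fintype_card, smul_eq_mul, mul_comm]

theorem aff_lt_of_singular (V : WeierstrassCurve k) (hΔ : V.Δ = 0) : aff V < 2 * Nat.card k := by
  classical
  have := Fintype.ofFinite k
  obtain ⟨x, y, h1, h2⟩ := exists_fold_of_singular V hΔ
  rw [aff_eq_sum]
  calc ∑ x : k, Nat.card (fib V x) < ∑ _x : k, 2 :=
        Finset.sum_lt_sum (fun x _ => fib_le V x)
          ⟨x, Finset.mem_univ _, by have := fib_fold (V := V) (x := x) (y := y) h1 h2; omega⟩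
    _ = 2 * Nat.card k := by
      rw [Finset.sum_const, Finset.card_univ, Nat.card_eq_fintype_card, smul_eq_mul, mul_comm]

end

theorem quad_ne {a q : ℝ} {x : ℂ} (hq : 2 ≤ q) (ha : |a| ≤ q) (hx : ‖x‖ ≤ 1 / q) :
    1 - ((a : ℂ) * x - (q : ℂ) * x * x) ≠ 0 := by
  intro h
  have hq0 : (0 : ℝ) < q := by linarith
  have hre := congrArg Complex.re h
  have him := congrArg Complex.im h
  simp at hre him
  have hn : x.re * x.re + x.im * x.im ≤ 1 / (q * q) := by
    have h1 : ‖x‖ * ‖x‖ ≤ (1 / q) * (1 / q) := mul_self_le_mul_self (norm_nonneg _) hx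
    have h2 : ‖x‖ * ‖x‖ = x.re * x.re + x.im * x.im := by
      rw [← Complex.normSq_apply, Complex.normSq_eq_norm_sq, sq]
    rw [h2] at h1
    calc _ ≤ (1 / q) * (1 / q) := h1
      _ = 1 / (q * q) := by field_simp
  have hn' : q * q * (x.re * x.re + x.im * x.im) ≤ 1 := by
    have := mul_le_mul_of_nonneg_left hn (by positivity : (0 : ℝ) ≤ q * q)
    rwa [mul_one_div, div_self (by positivity)] at this
  by_cases hv : x.im = 0
  · rw [hv] at hre hn'
    have h3 : |a * x.re| ≤ 1 := by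
      rw [abs_mul]
      have h4 : |x.re| ≤ 1 / q := (Complex.abs_re_le_norm x).trans hx
      calc |a| * |x.re| ≤ q * (1 / q) := mul_le_mul ha h4 (abs_nonneg _) hq0.le
        _ = 1 := by field_simp
    have h5 := (abs_le.1 h3).2
    have h6 : q * (x.re * x.re) ≤ 0 := by nlinarith
    have h7 : x.re * x.re = 0 := by nlinarith [mul_self_nonneg x.re]
    have h8 : x.re = 0 := mul_self_eq_zero.1 h7
    rw [h8] at hre
    simp at hre
  · have h3 : a = 2 * q * x.re := by
      have h4 : x.im * (a - 2 * q * x.re) = 0 := by nlinarith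
      rcases mul_eq_zero.1 h4 with h5 | h5
      · exact absurd h5 hv
      · linarith
    rw [h3] at hre
    have h4 : q * (x.re * x.re + x.im * x.im) = 1 := by nlinarith
    nlinarith

section
variable {F : Type} [Field F] [NumberField F]

theorem norm_cpow_le (w : HeightOneSpectrum (𝓞 F)) {s : ℂ} (hs : 1 ≤ s.re) :
    ‖((nm w : ℕ) : ℂ) ^ (-s)‖ ≤ 1 / (nm w : ℝ) := by
  have h2 : 2 ≤ nm w := two_le_nm w
  have h0 : (0 : ℝ) < nm w := by exact_mod_cast (by omega : 0 < nm w)
  have h1 : (1 : ℝ) ≤ nm w := by exact_mod_cast (by omega : 1 ≤ nm w)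
  rw [Complex.norm_natCast_cpow_of_pos (by omega : 0 < nm w), Complex.neg_re, one_div,
    ← Real.rpow_neg_one]
  exact Real.rpow_le_rpow_of_exponent_le h1 (by linarith)

theorem cpow_rel (w : HeightOneSpectrum (𝓞 F)) (s : ℂ) :
    ((nm w : ℕ) : ℂ) ^ (1 - 2 * s) =
      (nm w : ℂ) * ((nm w : ℕ) : ℂ) ^ (-s) * ((nm w : ℕ) : ℂ) ^ (-s) := by
  have hq : ((nm w : ℕ) : ℂ) ≠ 0 := by
    have := two_le_nm w
    exact_mod_cast (by omega : nm w ≠ 0)
  have h : (1 : ℂ) - 2 * s = 1 + (-s) + (-s) := by ring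
  rw [h, Complex.cpow_add _ _ hq, Complex.cpow_add _ _ hq, Complex.cpow_one]

/-- **The factor at a point with `Re s ≥ 1` does not vanish.** -/
theorem fac_ne (V : HeightOneSpectrum (𝓞 F) → WeierstrassCurve (𝓞 F))
    (w : HeightOneSpectrum (𝓞 F)) {s : ℂ} (hs : 1 ≤ s.re) : 1 - zz V w s ≠ 0 := by
  classical
  have hq2 : 2 ≤ nm w := two_le_nm w
  have hq2' : (2 : ℝ) ≤ nm w := by exact_mod_cast hq2
  have hfin : Finite (𝓞 F ⧸ w.asIdeal) :=
    Ideal.finiteQuotientOfFreeOfNeBot w.asIdeal w.ne_bot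
  have hmax : w.asIdeal.IsMaximal := w.isMaximal
  let _ : Field (𝓞 F ⧸ w.asIdeal) := Ideal.Quotient.field w.asIdeal
  have hcard : Nat.card (𝓞 F ⧸ w.asIdeal) = nm w := by
    unfold nm
    rw [Ideal.absNorm_apply]
    rfl
  set x : ℂ := ((nm w : ℕ) : ℂ) ^ (-s) with hx
  have hxn : ‖x‖ ≤ 1 / (nm w : ℝ) := norm_cpow_le w hs
  set a : ℤ := (nm w : ℤ) - (aff (red w (V w)) : ℤ) with ha
  unfold zz
  rw [cpow_rel, ← hx, ← ha]
  split_ifs with hbad
  · rw [zero_mul, sub_zero]
    intro h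
    have h1 : (a : ℂ) * x = 1 := by linear_combination -h
    have hsing : (red w (V w)).Δ = 0 := by
      unfold red
      rw [WeierstrassCurve.map_Δ]
      exact Ideal.Quotient.eq_zero_iff_mem.2 hbad
    have h3 : 0 < aff (red w (V w)) := aff_pos_of_singular _ hsing
    have h4 : aff (red w (V w)) < 2 * Nat.card (𝓞 F ⧸ w.asIdeal) := aff_lt_of_singular _ hsing
    rw [hcard] at h4
    have h5 : |a| ≤ (nm w : ℤ) - 1 := by
      rw [abs_le]
      omega
    have h6 : |(a : ℝ)| ≤ (nm w : ℝ) - 1 := by exact_mod_cast h5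
    have h7 : ‖(a : ℂ) * x‖ = 1 := by rw [h1, norm_one]
    rw [norm_mul] at h7
    have h8 : ‖(a : ℂ)‖ = |(a : ℝ)| := by
      rw [← Complex.ofReal_intCast, Complex.norm_real, Real.norm_eq_abs]
    rw [h8] at h7
    have h9 : |(a : ℝ)| * ‖x‖ ≤ ((nm w : ℝ) - 1) * (1 / nm w) :=
      mul_le_mul h6 hxn (norm_nonneg _) (by linarith)
    have h10 : ((nm w : ℝ) - 1) * (1 / nm w) < 1 := by
      rw [mul_one_div, div_lt_one (by linarith)]
      linarith
    linarith
  · have h4 : aff (red w (V w)) ≤ 2 * Nat.card (𝓞 F ⧸ w.asIdeal) := aff_le _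
    rw [hcard] at h4
    have h5 : |a| ≤ (nm w : ℤ) := by
      rw [abs_le]
      omega
    have h6 : |(a : ℝ)| ≤ (nm w : ℝ) := by exact_mod_cast h5
    have h7 := quad_ne (a := (a : ℝ)) (q := (nm w : ℝ)) (x := x) hq2' h6 hxn
    rw [one_mul]
    push_cast at h7 ⊢
    exact h7

theorem fac_an (V : HeightOneSpectrum (𝓞 F) → WeierstrassCurve (𝓞 F))
    (w : HeightOneSpectrum (𝓞 F)) {s : ℂ} (hs : 1 ≤ s.re) :
    AnalyticAt ℂ (fun s => (1 - zz V w s)⁻¹) s :=
  (((differentiable_const 1).sub (differentiable_zz V w)).analyticAt s).fun_inv (fac_ne V w hs)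

end

end Pool.Agent.Q7.RL
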