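import Pool.Agent.Q7.RL.Dlg
import Pool.Agent.TH119.MX.Gal

/-!
# Fields without new zeros: the complete L-function
-/

set_option autoImplicit false
set_option linter.unusedSectionVars false

namespace Pool.Agent.Q7.RL

open NumberField IsDedekindDomain Filter Topology Pool.Agent.Q5.BR Pool.Agent.H541R3.ART
  Pool.Agent.W446.AS Pool.Agent.Q92.RT Pool.Agent.Q7.SZ Pool.Agent.Q7.TZ Pool.Agent.Q7.GR
  Pool.Agent.Q7.DC Pool.Agent.H302R2 Pool.Agent.W353.NF Pool.Agent.H341R2
  Pool.Agent.H341R2.EC Pool.Agent.H921R2.TatePole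
open Pool.Agent.TH322.BC.Edge (MinimalModels)

open Pool.Agent.TH322.BC.Edge renaming LSeries → LS

open scoped Classical

/-- a number fixed by all automorphisms of `ℂ` is rational -/
theorem rational_of_fixed {z : ℂ} (h : ∀ σ : ℂ ≃+* ℂ, σ z = z) : ∃ q : ℚ, z = q := by
  by_contra hcon
  have h1 : z ∉ (algebraMap ℚ ℂ).fieldRange := by
    rintro ⟨q, hq⟩
    exact hcon ⟨q, hq.symm⟩
  obtain ⟨σ, -, h2⟩ := Pool.Agent.TH119.MX.exists_move h1
  exact h2 (h σ)

section
variable {K : Type} [Field K] [NumberField K] {M : Type} [Field M] [NumberField M] [Algebra K M]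
  [IsGalois K M] {E : WeierstrassCurve K} {W : WeierstrassCurve (𝓞 K)}

/-- The value at `s = 1` of the complete L-function of the elliptic curve `E` over the number field `F`
(of its meromorphic continuation to `ℂ`) exists and is a rational multiple of `c`. -/
def RationalMultiple {F : Type} [Field F] [NumberField F] (E : WeierstrassCurve F) (c : ℂ) : Prop :=
  ∀ V : HeightOneSpectrum (𝓞 F) → WeierstrassCurve (𝓞 F), MinimalModels E V →
    ∃ q : ℚ, Value (LS V) ((q : ℂ) * c)

theorem rational_aux {F : Type} [Field F] [NumberField F] [Algebra K F] [Algebra F M]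
    [IsScalarTower K F M] (hE : E.IsElliptic) (hW : IsModel E W) {c : ℂ} {q₀ : ℚ}
    (hc : Value (twistedL M W (induced (fixer K F M) 1)) ((q₀ : ℂ) * c)) :
    RationalMultiple (E.map (algebraMap K F)) c := by
  intro V hV
  obtain ⟨f, hf, hf2⟩ := hc
  have hΔ := model_Δ hE hW
  obtain ⟨q, -, hq⟩ := excl_rat (M := M) (F := F) hΔ V
  have han := (excl_at (M := M) (F := F) hΔ V (s₀ := 1) (by simp)).1
  refine ⟨q * q₀, _, continues_field hE hW hV hf, ?_⟩
  have h1 : Tendsto (excl M W V) (𝓝[≠] 1) (𝓝 (excl M W V 1)) :=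
    han.continuousAt.tendsto.mono_left nhdsWithin_le_nhds
  rw [hq] at h1
  have h2 := h1.mul hf2
  push_cast
  rw [mul_assoc]
  exact h2

/-- the value of the complete L-function over a field between `K` and `M` -/
theorem rationalMultiple_field (hE : E.IsElliptic) (hW : IsModel E W) (F : IntermediateField K M)
    {c : ℂ} {q₀ : ℚ} (hc : Value (twistedL M W (induced F.fixingSubgroup 1)) ((q₀ : ℂ) * c)) :
    RationalMultiple (E.map (algebraMap K F)) c := by
  rw [← fixer_inter F] at hc
  exact rational_aux hE hW hc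

/-- Galois equivariance for the trivial character -/
theorem value_of_equivariant {g : ℂ → ℂ} {c : ℂ} (hc : c ≠ 0)
    (h : ∀ σ : ℂ ≃+* ℂ, Equivariant σ g c g c) : ∃ q : ℚ, Value g ((q : ℂ) * c) := by
  obtain ⟨v, -, hv, -, -⟩ := h (RingEquiv.refl ℂ)
  have h1 : ∀ σ : ℂ ≃+* ℂ, σ (v / c) = v / c := by
    intro σ
    obtain ⟨w, w', hw, hw', h2⟩ := h σ
    have huniq : ∀ {x y : ℂ}, Value g x → Value g y → x = y := by
      rintro x y ⟨f, hf, hx⟩ hy
      exact tendsto_nhds_unique hx ((value_iff hf).1 hy)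
    rw [huniq hv hw, h2, huniq hw' hw]
  obtain ⟨q, hq⟩ := rational_of_fixed h1
  refine ⟨q, ?_⟩
  rw [← hq, div_mul_cancel₀ _ hc]
  exact hv

end

end Pool.Agent.Q7.RL
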