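import Pool.Agent.Q7.RL.Loc

/-!
# Orders of real L-functions at the points with `Re s ≥ 1`

`HasOrder g s₀ n`: the function `g`, given for `Re s > 3/2`, has a meromorphic continuation to `ℂ`,
which has order `n` at `s₀`.
-/

set_option autoImplicit false
set_option linter.unusedSectionVars false

namespace Pool.Agent.Q7.RL

open NumberField IsDedekindDomain Filter Topology Pool.Agent.H341R2 Pool.Agent.H341R2.EC
  Pool.Agent.H921R2.TatePole Pool.Agent.W353.NF Pool.Agent.Q5.BR Pool.Agent.H541R3.ART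
  Pool.Agent.W446.AS Pool.Agent.Q92.RT Pool.Agent.Q7.SZ
open Pool.Agent.TH322.BC.Edge (MinimalModels)

open Pool.Agent.TH322.BC.Edge renaming LSeries → LS

/-- The function `g`, which is given for `Re s > 3/2`, has a meromorphic continuation to `ℂ`, and the
order of the continuation at `s₀` is `n`. -/
def HasOrder (g : ℂ → ℂ) (s₀ : ℂ) (n : ℤ) : Prop :=
  ∃ f : ℂ → ℂ, Continues f g ∧ meromorphicOrderAt f s₀ = (n : WithTop ℤ)

/-- The function `L(E, s)` of the elliptic curve `E` over the number field `F`, the Euler product with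
the right factors at all primes, has a meromorphic continuation to `ℂ`, and its order at `s₀` is `n`. -/
def LOrder {F : Type} [Field F] [NumberField F] (E : WeierstrassCurve F) (s₀ : ℂ) (n : ℤ) : Prop :=
  ∀ V : HeightOneSpectrum (𝓞 F) → WeierstrassCurve (𝓞 F), MinimalModels E V →
    HasOrder (LS V) s₀ n

theorem HasOrder.unique {g : ℂ → ℂ} {s₀ : ℂ} {n m : ℤ} (h : HasOrder g s₀ n)
    (h' : HasOrder g s₀ m) : n = m := by
  obtain ⟨f, hf, hn⟩ := h
  obtain ⟨f', hf', hm⟩ := h'
  have h1 := hf.order_eq hf' (fun _ _ => rfl) s₀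
  rw [hn, hm] at h1
  exact_mod_cast h1

theorem hasOrder_iff {g f : ℂ → ℂ} {s₀ : ℂ} {n : ℤ} (hf : Continues f g) :
    HasOrder g s₀ n ↔ meromorphicOrderAt f s₀ = (n : WithTop ℤ) := by
  constructor
  · rintro ⟨f', hf', h⟩
    rw [← h]
    exact hf.order_eq hf' (fun _ _ => rfl) s₀
  · intro h
    exact ⟨f, hf, h⟩

theorem LOrder.unique {F : Type} [Field F] [NumberField F] {E : WeierstrassCurve F}
    (hE : E.IsElliptic) {s₀ : ℂ} {n m : ℤ} (h : LOrder E s₀ n) (h' : LOrder E s₀ m) : n = m := by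
  obtain ⟨V, hV⟩ := exists_minimalModels E hE
  exact (h V hV).unique (h' V hV)

section
variable {K F M : Type} [Field K] [NumberField K] [Field F] [NumberField F] [Field M] [NumberField M]
  [Algebra K F] [Algebra K M] [Algebra F M] [IsScalarTower K F M] [IsGalois K M]

theorem excl_at {W : WeierstrassCurve (𝓞 K)} (hW : W.Δ ≠ 0)
    (V : HeightOneSpectrum (𝓞 F) → WeierstrassCurve (𝓞 F)) {s₀ : ℂ} (hs : 1 ≤ s₀.re) :
    AnalyticAt ℂ (excl M W V) s₀ ∧ excl M W V s₀ ≠ 0 := by
  have e : excl M W V = fun s => ∏ v ∈ (bad_finite (M := M) hW).toFinset,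
    ∏ w ∈ above F v, (1 - zz V w s)⁻¹ := funext fun s => excl_eq hW V s
  rw [e]
  refine ⟨Finset.analyticAt_fun_prod _ fun v _ => Finset.analyticAt_fun_prod _ fun w _ =>
    fac_an _ _ hs, ?_⟩
  exact Finset.prod_ne_zero_iff.2 fun v _ => Finset.prod_ne_zero_iff.2 fun w _ =>
    inv_ne_zero (fac_ne _ _ hs)

/-- **The order over a field between `K` and `M`, at a point with `Re s ≥ 1`.** -/
theorem order_field_at {E : WeierstrassCurve K} (hE : E.IsElliptic) {W : WeierstrassCurve (𝓞 K)}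
    (hW : IsModel E W) {V : HeightOneSpectrum (𝓞 F) → WeierstrassCurve (𝓞 F)}
    (hV : MinimalModels (E.map (algebraMap K F)) V) {f g : ℂ → ℂ} {s₀ : ℂ} (hs : 1 ≤ s₀.re)
    (hf : Continues f (LS V)) (hg : Continues g (twistedL M W (induced (fixer K F M) 1))) :
    meromorphicOrderAt f s₀ = meromorphicOrderAt g s₀ := by
  have hΔ := model_Δ hE hW
  rw [hf.order_eq (continues_field hE hW hV hg) (fun _ _ => rfl) s₀]
  obtain ⟨h1, h2⟩ := excl_at (M := M) (F := F) hΔ V hs
  rw [fun_meromorphicOrderAt_mul h1.meromorphicAt (hg.1 s₀ (Set.mem_univ _)),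
    h1.meromorphicOrderAt_eq, h1.analyticOrderAt_eq_zero.2 h2]
  simp

theorem lorder_iff {E : WeierstrassCurve K} (hE : E.IsElliptic) {W : WeierstrassCurve (𝓞 K)}
    (hW : IsModel E W) {g : ℂ → ℂ} {s₀ : ℂ} (hs : 1 ≤ s₀.re)
    (hg : Continues g (twistedL M W (induced (fixer K F M) 1))) (n : ℤ) :
    LOrder (E.map (algebraMap K F)) s₀ n ↔ meromorphicOrderAt g s₀ = (n : WithTop ℤ) := by
  constructor
  · intro h
    have hEF : (E.map (algebraMap K F)).IsElliptic := inferInstance
    obtain ⟨V, hV⟩ := exists_minimalModels (E.map (algebraMap K F)) hEF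
    obtain ⟨f, hf, h1⟩ := h V hV
    rw [← h1]
    exact (order_field_at hE hW hV hs hf hg).symm
  · intro h V hV
    refine ⟨_, continues_field hE hW hV hg, ?_⟩
    rw [order_field_at hE hW hV hs (continues_field hE hW hV hg) hg, h]

end

section
variable {K M : Type} [Field K] [NumberField K] [Field M] [NumberField M] [Algebra K M]

theorem cont_irr {W : WeierstrassCurve (𝓞 K)} {s₀ : ℂ} (h : Automorphic M W s₀)
    {χ : (M ≃ₐ[K] M) → ℂ} (hχ : χ ∈ Irr (M ≃ₐ[K] M)) :
    Continues ((TwistData.ofCurve h).L χ) (twistedL M W χ) := cont_spec (h.mero χ hχ)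

theorem cont_ind {W : WeierstrassCurve (𝓞 K)} {s₀ : ℂ} (h : Automorphic M W s₀)
    (H : Subgroup (M ≃ₐ[K] M)) (ψ : H →* ℂˣ) :
    Continues ((TwistData.ofCurve h).Lin H ψ) (twistedL M W (induced H ψ)) :=
  cont_spec (exists_continues h.mero H ψ)

theorem irr_iff {W : WeierstrassCurve (𝓞 K)} {s₀ : ℂ} (h : Automorphic M W s₀)
    {χ : (M ≃ₐ[K] M) → ℂ} (hχ : χ ∈ Irr (M ≃ₐ[K] M)) (n : ℤ) :
    HasOrder (twistedL M W χ) s₀ n ↔
      meromorphicOrderAt ((TwistData.ofCurve h).L χ) s₀ = (n : WithTop ℤ) :=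
  hasOrder_iff (cont_irr h hχ)

theorem ind_iff {W : WeierstrassCurve (𝓞 K)} {s₀ : ℂ} (h : Automorphic M W s₀)
    (H : Subgroup (M ≃ₐ[K] M)) (ψ : H →* ℂˣ) (n : ℤ) :
    HasOrder (twistedL M W (induced H ψ)) s₀ n ↔
      meromorphicOrderAt ((TwistData.ofCurve h).Lin H ψ) s₀ = (n : WithTop ℤ) :=
  hasOrder_iff (cont_ind h H ψ)

theorem fixer_inter (F : IntermediateField K M) : fixer K F M = F.fixingSubgroup := by
  ext g
  constructor
  · intro hg
    rw [IntermediateField.mem_fixingSubgroup_iff]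
    intro x hx
    exact hg ⟨x, hx⟩
  · intro hg x
    rw [IntermediateField.mem_fixingSubgroup_iff] at hg
    exact hg x x.2

variable [IsGalois K M]

/-- **The order over a field between `K` and `M`.** -/
theorem field_iff {E : WeierstrassCurve K} (hE : E.IsElliptic) {W : WeierstrassCurve (𝓞 K)}
    (hW : IsModel E W) {s₀ : ℂ} (hs : 1 ≤ s₀.re) (h : Automorphic M W s₀)
    (F : IntermediateField K M) (n : ℤ) :
    LOrder (E.map (algebraMap K F)) s₀ n ↔
      meromorphicOrderAt ((TwistData.ofCurve h).Lin F.fixingSubgroup 1) s₀ = (n : WithTop ℤ) := by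
  rw [← fixer_inter F]
  exact lorder_iff hE hW hs (cont_ind h (fixer K F M) 1) n

/-- the orders are integers -/
theorem Lin_order_ne_top {G : Type} [Group G] [Finite G] {s₀ : ℂ} (A : TwistData G s₀)
    (H : Subgroup G) (ψ : H →* ℂˣ) : ∃ n : ℤ, meromorphicOrderAt (A.Lin H ψ) s₀ =
      (n : WithTop ℤ) := by
  classical
  choose! m hm using fun χ (hχ : χ ∈ Irr G) => exists_mult hχ H ψ
  exact ⟨_, A.order_Lin H ψ m hm⟩

theorem exists_order_field {E : WeierstrassCurve K} (hE : E.IsElliptic)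
    {W : WeierstrassCurve (𝓞 K)} (hW : IsModel E W) {s₀ : ℂ} (hs : 1 ≤ s₀.re)
    (h : Automorphic M W s₀) (F : IntermediateField K M) :
    ∃ n : ℤ, LOrder (E.map (algebraMap K F)) s₀ n := by
  obtain ⟨n, hn⟩ := Lin_order_ne_top (TwistData.ofCurve h) F.fixingSubgroup 1
  exact ⟨n, (field_iff hE hW hs h F n).2 hn⟩

theorem fixingSubgroup_inf (F L : IntermediateField K M) :
    (F ⊓ L).fixingSubgroup = F.fixingSubgroup ⊔ L.fixingSubgroup := by
  have h := (IsGalois.intermediateFieldEquivSubgroup (F := K) (E := M)).map_inf F L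
  exact congrArg OrderDual.ofDual h

theorem fixingSubgroup_sup' (F L : IntermediateField K M) :
    (F ⊔ L).fixingSubgroup = F.fixingSubgroup ⊓ L.fixingSubgroup := by
  have h := (IsGalois.intermediateFieldEquivSubgroup (F := K) (E := M)).map_sup F L
  exact congrArg OrderDual.ofDual h

end

end Pool.Agent.Q7.RL
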