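import Pool.Agent.Q7.RL.Ord
import Pool.Agent.Q5.BR.Rank
import Pool.Agent.Q7.SZ.Bsd

/-!
# The Mordell-Weil group as a representation

`mw E M` is the representation of the Galois group of `M/K` on `ℚ ⊗ E(M)`; its invariants under the
group of `M/F` have dimension `rank E(F)`.
-/

set_option autoImplicit false
set_option linter.unusedSectionVars false

namespace Pool.Agent.Q7.RL

open NumberField IsDedekindDomain Filter Topology TensorProduct nonZeroDivisors
  Pool.Agent.Q5.BR Pool.Agent.H541R3.ART Pool.Agent.W446.AS Pool.Agent.Q92.RT Pool.Agent.Q7.SZ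
  Pool.Agent.W353.NF Pool.Agent.H341R2.EC
open scoped Classical

/-- The rank of the group `E(F)`. -/
noncomputable def rank {F : Type} [Field F] (E : WeierstrassCurve F) : ℕ := by
  classical
  exact Module.finrank ℤ E.toAffine.Point

section
variable {H A : Type} [Group H] [AddCommGroup A]

/-- extension of scalars -/
noncomputable def qx (k : Type) [Field k] (ρ : Representation ℤ H A) :
    Representation k H (k ⊗[ℤ] A) where
  toFun h := LinearMap.baseChange k (ρ h)
  map_one' := by
    rw [map_one]
    change LinearMap.baseChange k (LinearMap.id : A →ₗ[ℤ] A) = _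
    rw [LinearMap.baseChange_id]
    rfl
  map_mul' g h := by
    rw [map_mul]
    change LinearMap.baseChange k ((ρ g) ∘ₗ (ρ h)) = _
    rw [LinearMap.baseChange_comp]
    rfl

theorem finrank_qinv (k : Type) [Field k] [CharZero k] [Module.Flat ℤ k] [Finite H]
    (ρ : Representation ℤ H A) :
    Module.finrank k (qx k ρ).invariants = Module.finrank k (k ⊗[ℤ] ρ.invariants) := by
  classical
  have := Fintype.ofFinite H
  let φ : (k ⊗[ℤ] ρ.invariants) →ₗ[k] (k ⊗[ℤ] A) := LinearMap.baseChange k ρ.invariants.subtype
  have hφ : Function.Injective φ := by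
    have h1 : Function.Injective (LinearMap.lTensor k ρ.invariants.subtype) :=
      Module.Flat.lTensor_preserves_injective_linearMap (M := k) _ ρ.invariants.injective_subtype
    exact h1
  have hcard : (Nat.card H : k) ≠ 0 := by exact_mod_cast Nat.card_pos.ne'
  have hsum : ∀ v : k ⊗[ℤ] A, ∑ h : H, qx k ρ h v ∈ LinearMap.range φ := by
    intro v
    induction v with
    | zero => simp
    | add x y hx hy =>
      simp only [map_add, Finset.sum_add_distrib]
      exact Submodule.add_mem _ hx hy
    | tmul c a =>
      have h2 : ∑ h : H, ρ h a ∈ ρ.invariants := by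
        intro g
        rw [map_sum]
        have h3 : ∀ h : H, ρ g (ρ h a) = ρ (g * h) a := fun h => by rw [map_mul]; rfl
        simp only [h3]
        exact Equiv.sum_comp (Equiv.mulLeft g) (fun h => ρ h a)
      refine ⟨c ⊗ₜ ⟨_, h2⟩, ?_⟩
      change c ⊗ₜ (∑ h : H, ρ h a) = _
      rw [TensorProduct.tmul_sum]
      rfl
  have hrange : LinearMap.range φ = (qx k ρ).invariants := by
    apply le_antisymm
    · rintro _ ⟨v, rfl⟩ g
      induction v with
      | zero => simp
      | add x y hx hy => rw [map_add, map_add, hx, hy]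
      | tmul c a =>
        change c ⊗ₜ (ρ g a.1) = c ⊗ₜ a.1
        rw [a.2 g]
    · intro v hv
      have h4 : ∑ h : H, qx k ρ h v = (Nat.card H : k) • v := by
        rw [Finset.sum_congr rfl fun h _ => hv h, Finset.sum_const, Finset.card_univ,
          Nat.card_eq_fintype_card, ← Nat.cast_smul_eq_nsmul k]
      have h5 := (LinearMap.range φ).smul_mem (Nat.card H : k)⁻¹ (hsum v)
      rwa [h4, smul_smul, inv_mul_cancel₀ hcard, one_smul] at h5
  rw [← hrange]
  exact (LinearEquiv.ofInjective φ hφ).finrank_eq.symm

theorem finrank_rat (A : Type) [AddCommGroup A] :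
    Module.finrank ℚ (ℚ ⊗[ℤ] A) = Module.finrank ℤ A := by
  have h1 : Module.finrank ℚ (ℚ ⊗[ℤ] A) = Module.finrank ℤ (ℚ ⊗[ℤ] A) :=
    IsLocalization.finrank_eq ℚ ℤ⁰ le_rfl
  have h2 := IsLocalizedModule.finrank_eq ℤ⁰ (TensorProduct.mk ℤ ℚ A 1) le_rfl
  rw [h1]
  exact h2

end

section
variable {K M : Type} [Field K] [NumberField K] [Field M] [NumberField M] [Algebra K M]

/-- The representation of the Galois group of `M/K` on `ℚ ⊗ E(M)`. -/
noncomputable def mw (E : WeierstrassCurve K) (M : Type) [Field M] [Algebra K M] :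
    Representation ℚ (M ≃ₐ[K] M) (ℚ ⊗[ℤ] (E.baseChange M).toAffine.Point) :=
  qx ℚ (rep E M)

theorem mw_finite {E : WeierstrassCurve K} (hE : E.IsElliptic) :
    FiniteDimensional ℚ (ℚ ⊗[ℤ] (E.baseChange M).toAffine.Point) := by
  have hfg : AddGroup.FG (E.baseChange M).toAffine.Point := by
    refine Pool.Agent.Q286.EQ.mordell_weil M _ ?_
    change (E.map (algebraMap K M)).Δ ≠ 0
    rw [WeierstrassCurve.map_Δ]
    intro h
    exact E.isUnit_Δ.ne_zero ((map_eq_zero_iff _ (algebraMap K M).injective).1 h)
  have := Module.Finite.iff_addGroup_fg.2 hfg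
  infer_instance

/-- **The rank over a field between `K` and `M`.** -/
theorem rk_mw {E : WeierstrassCurve K} [IsGalois K M]
    [FiniteDimensional ℚ (ℚ ⊗[ℤ] (E.baseChange M).toAffine.Point)]
    (F : IntermediateField K M) :
    Pool.Agent.Q7.SZ.rk (mw E M) F.fixingSubgroup = rank (E.map (algebraMap K F)) := by
  have hfd : FiniteDimensional K M := inferInstance
  have hfin : Finite (M ≃ₐ[K] M) := inferInstance
  have h1 : F.val.fieldRange = F := F.fieldRange_val
  have h2 := finrank_invariants E (N := M) (F := F) F.val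
  rw [h1] at h2
  have h3 := finrank_qinv ℚ (repR E F.fixingSubgroup)
  rw [finrank_rat, h2] at h3
  exact h3

/-- the rank conjecture over a field between `K` and `M` -/
theorem rankHolds_iff {E : WeierstrassCurve K} (hE : E.IsElliptic) [IsGalois K M]
    [FiniteDimensional ℚ (ℚ ⊗[ℤ] (E.baseChange M).toAffine.Point)]
    {W : WeierstrassCurve (𝓞 K)} (hW : IsModel E W) (h : Automorphic M W 1)
    (F : IntermediateField K M) :
    RankHolds (TwistData.ofCurve h) (mw E M) F.fixingSubgroup ↔
      LOrder (E.map (algebraMap K F)) 1 (rank (E.map (algebraMap K F)) : ℤ) := by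
  rw [field_iff hE hW (by simp) h F]
  unfold RankHolds
  rw [rk_mw F]

theorem forall_subgroup [IsGalois K M] (P : Subgroup (M ≃ₐ[K] M) → Prop) :
    (∀ H, P H) ↔ ∀ F : IntermediateField K M, P F.fixingSubgroup := by
  constructor
  · intro h F
    exact h _
  · intro h H
    have h1 := h (IntermediateField.fixedField H)
    rwa [IntermediateField.fixingSubgroup_fixedField] at h1

theorem exists_fixing [IsGalois K M] (H : Subgroup (M ≃ₐ[K] M)) :
    ∃ F : IntermediateField K M, F.fixingSubgroup = H :=
  ⟨IntermediateField.fixedField H, IntermediateField.fixingSubgroup_fixedField H⟩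

theorem fixing_le_iff [IsGalois K M] {F L : IntermediateField K M} :
    F.fixingSubgroup ≤ L.fixingSubgroup ↔ L ≤ F := by
  constructor
  · intro h
    have h1 := IntermediateField.fixedField_le h
    rwa [IsGalois.fixedField_fixingSubgroup, IsGalois.fixedField_fixingSubgroup] at h1
  · intro h
    exact IntermediateField.fixingSubgroup_antitone h

end

end Pool.Agent.Q7.RL
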