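import Pool.Agent.Q7.RL.Ana
import Pool.Agent.Q7.RL.Rank

/-!
# The orders of the L-functions of an elliptic curve in a Galois extension
-/

set_option autoImplicit false
set_option linter.unusedSectionVars false

namespace Pool.Agent.Q7.RL

open NumberField IsDedekindDomain Filter Topology Pool.Agent.Q5.BR Pool.Agent.H541R3.ART
  Pool.Agent.W446.AS Pool.Agent.Q92.RT Pool.Agent.Q7.SZ Pool.Agent.H341R2.EC TensorProduct
  Pool.Agent.W353.NF
open Pool.Agent.TH322.BC.Edge (MinimalModels)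

open Pool.Agent.TH322.BC.Edge renaming LSeries → LS

section
variable {K : Type} [Field K] [NumberField K] {M : Type} [Field M] [NumberField M] [Algebra K M]

/-- `n χ` is the order at `s₀` of the function `L(E ⊗ χ, s)`, for all irreducible characters `χ` of the
Galois group of `M/K`, and `r F` is the order at `s₀` of `L(E/F, s)`, for all fields `F` between `K`
and `M` (`⊥` is `K` and `⊤` is `M`). -/
structure Orders (E : WeierstrassCurve K) (W : WeierstrassCurve (𝓞 K)) (s₀ : ℂ)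
    (n : ((M ≃ₐ[K] M) → ℂ) → ℤ) (r : IntermediateField K M → ℤ) : Prop where
  twist : ∀ χ ∈ Irr (M ≃ₐ[K] M), HasOrder (twistedL M W χ) s₀ (n χ)
  field : ∀ F : IntermediateField K M, LOrder (E.map (algebraMap K F)) s₀ (r F)

variable {E : WeierstrassCurve K} {W : WeierstrassCurve (𝓞 K)} {s₀ : ℂ}

theorem exists_orders [IsGalois K M] (hE : E.IsElliptic) (hW : IsModel E W) (hs : 1 ≤ s₀.re)
    (h : Automorphic M W s₀) : ∃ (n : ((M ≃ₐ[K] M) → ℂ) → ℤ) (r : IntermediateField K M → ℤ),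
      Orders E W s₀ n r := by
  choose r hr using fun F => exists_order_field hE hW hs h F
  exact ⟨(TwistData.ofCurve h).ord, r, fun χ hχ =>
    (irr_iff h hχ _).2 ((TwistData.ofCurve h).coe_ord hχ).symm, hr⟩

namespace Orders

variable {n : ((M ≃ₐ[K] M) → ℂ) → ℤ} {r : IntermediateField K M → ℤ}

theorem irr (h : Orders E W s₀ n r) (a : Automorphic M W s₀) {χ : (M ≃ₐ[K] M) → ℂ}
    (hχ : χ ∈ Irr (M ≃ₐ[K] M)) :
    meromorphicOrderAt ((TwistData.ofCurve a).L χ) s₀ = ((n χ : ℤ) : WithTop ℤ) :=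
  (irr_iff a hχ _).1 (h.twist χ hχ)

theorem ord (h : Orders E W s₀ n r) (a : Automorphic M W s₀) {χ : (M ≃ₐ[K] M) → ℂ}
    (hχ : χ ∈ Irr (M ≃ₐ[K] M)) : (TwistData.ofCurve a).ord χ = n χ := by
  have h1 := h.irr a hχ
  rw [← (TwistData.ofCurve a).coe_ord hχ] at h1
  exact_mod_cast h1

theorem irr_eq_iff (h : Orders E W s₀ n r) (a : Automorphic M W s₀) {χ : (M ≃ₐ[K] M) → ℂ}
    (hχ : χ ∈ Irr (M ≃ₐ[K] M)) (k : ℤ) :
    meromorphicOrderAt ((TwistData.ofCurve a).L χ) s₀ = (k : WithTop ℤ) ↔ n χ = k := by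
  rw [h.irr a hχ]
  exact WithTop.coe_eq_coe

variable [IsGalois K M]

theorem lin (h : Orders E W s₀ n r) (hE : E.IsElliptic) (hW : IsModel E W) (hs : 1 ≤ s₀.re)
    (a : Automorphic M W s₀) (F : IntermediateField K M) :
    meromorphicOrderAt ((TwistData.ofCurve a).Lin F.fixingSubgroup 1) s₀ =
      ((r F : ℤ) : WithTop ℤ) :=
  (field_iff hE hW hs a F _).1 (h.field F)

theorem bot (h : Orders E W s₀ n r) (hE : E.IsElliptic) (hW : IsModel E W) (hs : 1 ≤ s₀.re)
    (a : Automorphic M W s₀) :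
    meromorphicOrderAt ((TwistData.ofCurve a).Lin ⊥ 1) s₀ = ((r ⊤ : ℤ) : WithTop ℤ) := by
  have h1 := h.lin hE hW hs a ⊤
  rwa [IntermediateField.fixingSubgroup_top] at h1

theorem top (h : Orders E W s₀ n r) (hE : E.IsElliptic) (hW : IsModel E W) (hs : 1 ≤ s₀.re)
    (a : Automorphic M W s₀) :
    meromorphicOrderAt ((TwistData.ofCurve a).Lin ⊤ 1) s₀ = ((r ⊥ : ℤ) : WithTop ℤ) := by
  have h1 := h.lin hE hW hs a ⊥
  rwa [IntermediateField.fixingSubgroup_bot] at h1

/-- the order over `M` is not negative -/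
theorem nonneg (h : Orders E W s₀ n r) (hE : E.IsElliptic) (hW : IsModel E W) (hs : 1 ≤ s₀.re)
    (a : Automorphic M W s₀) : 0 ≤ r ⊤ := by
  have h1 := (TwistData.ofCurve a).hol ⊥ 1 inferInstance
  rw [h.bot hE hW hs a] at h1
  exact_mod_cast h1

end Orders

end

/-- The functional equation of `L(E/F, s)`, for the function `f` and `d = [F : ℚ]`: the function
`Λ(s) = N ^ (s/2) ((2π)^(-s) Γ(s))^d f(s)` satisfies `Λ(s) = w Λ(2 - s)`. -/
def FunctionalEquation (d : ℕ) (f : ℂ → ℂ) : Prop :=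
  ∃ (N : ℝ) (w : ℂ), 0 < N ∧ ∀ s₀ : ℂ,
    (fun s : ℂ => (N : ℂ) ^ (s / 2) * ((2 * Real.pi : ℂ) ^ (-s) * Complex.Gamma s) ^ d * f s)
      =ᶠ[𝓝[≠] s₀] fun s => w * ((N : ℂ) ^ ((2 - s) / 2) *
        ((2 * Real.pi : ℂ) ^ (-(2 - s)) * Complex.Gamma (2 - s)) ^ d * f (2 - s))

/-- no poles to the right of the centre, no poles at all -/
theorem FunctionalEquation.nonneg {d : ℕ} {f : ℂ → ℂ} (h : FunctionalEquation d f)
    (hm : MeromorphicOn f Set.univ) (hf : ∀ s : ℂ, 1 ≤ s.re → 0 ≤ meromorphicOrderAt f s)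
    (s : ℂ) : 0 ≤ meromorphicOrderAt f s := by
  by_cases hs : 1 ≤ s.re
  · exact hf s hs
  push Not at hs
  obtain ⟨N, w, hN, hfe⟩ := h
  have hN' : (N : ℂ) ≠ 0 := by exact_mod_cast hN.ne'
  have hpi : (2 * Real.pi : ℂ) ≠ 0 := by
    exact_mod_cast (by positivity : (2 * Real.pi : ℝ) ≠ 0)
  -- the entire factor on the left
  have hG : ∀ᶠ z in 𝓝[≠] s, Complex.Gamma z ≠ 0 := by
    have h1 : AnalyticAt ℂ (fun z => (Complex.Gamma z)⁻¹) s :=
      Complex.differentiable_one_div_Gamma.analyticAt s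
    have h2 : meromorphicOrderAt (fun z => (Complex.Gamma z)⁻¹) s ≠ ⊤ := by
      have h3 : AnalyticOnNhd ℂ (fun z => (Complex.Gamma z)⁻¹) Set.univ := fun z _ =>
        Complex.differentiable_one_div_Gamma.analyticAt z
      intro h4
      rw [meromorphicOrderAt_eq_top_iff] at h4
      have h5 := h3.eqOn_zero_of_preconnected_of_frequently_eq_zero isPreconnected_univ
        (Set.mem_univ s) h4.frequently
      have h6 := h5 (Set.mem_univ (1 : ℂ))
      simp at h6
    have h3 := (meromorphicOrderAt_ne_top_iff_eventually_ne_zero h1.meromorphicAt).1 h2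
    filter_upwards [h3] with z hz
    exact fun h0 => hz (by rw [h0, inv_zero])
  have hE : f =ᶠ[𝓝[≠] s] fun z => ((N : ℂ) ^ (-(z / 2)) * ((2 * Real.pi : ℂ) ^ z *
      (Complex.Gamma z)⁻¹) ^ d * (w * ((N : ℂ) ^ ((2 - z) / 2) *
        ((2 * Real.pi : ℂ) ^ (-(2 - z)) * Complex.Gamma (2 - z)) ^ d))) * f (2 - z) := by
    filter_upwards [hfe s, hG] with z hz hz2
    have e1 : (N : ℂ) ^ (-(z / 2)) * (N : ℂ) ^ (z / 2) = 1 := by
      rw [← Complex.cpow_add _ _ hN', neg_add_cancel, Complex.cpow_zero]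
    have e2 : (2 * Real.pi : ℂ) ^ z * (2 * Real.pi : ℂ) ^ (-z) = 1 := by
      rw [← Complex.cpow_add _ _ hpi, add_neg_cancel, Complex.cpow_zero]
    have e3 : ((2 * Real.pi : ℂ) ^ z * (Complex.Gamma z)⁻¹) ^ d *
        ((2 * Real.pi : ℂ) ^ (-z) * Complex.Gamma z) ^ d = 1 := by
      rw [← mul_pow]
      have : (2 * Real.pi : ℂ) ^ z * (Complex.Gamma z)⁻¹ *
          ((2 * Real.pi : ℂ) ^ (-z) * Complex.Gamma z) = 1 := by
        calc _ = ((2 * Real.pi : ℂ) ^ z * (2 * Real.pi : ℂ) ^ (-z)) *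
              ((Complex.Gamma z)⁻¹ * Complex.Gamma z) := by ring
          _ = 1 := by rw [e2, inv_mul_cancel₀ hz2, one_mul]
      rw [this, one_pow]
    calc f z = ((N : ℂ) ^ (-(z / 2)) * (N : ℂ) ^ (z / 2)) *
          (((2 * Real.pi : ℂ) ^ z * (Complex.Gamma z)⁻¹) ^ d *
          ((2 * Real.pi : ℂ) ^ (-z) * Complex.Gamma z) ^ d) * f z := by rw [e1, e3]; ring
      _ = ((N : ℂ) ^ (-(z / 2)) * ((2 * Real.pi : ℂ) ^ z * (Complex.Gamma z)⁻¹) ^ d) *
          ((N : ℂ) ^ (z / 2) * ((2 * Real.pi : ℂ) ^ (-z) * Complex.Gamma z) ^ d * f z) := by ring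
      _ = _ := by rw [hz]; ring
  rw [meromorphicOrderAt_congr hE]
  have hanG : AnalyticAt ℂ (fun z : ℂ => Complex.Gamma (2 - z)) s := by
    have hre : 1 < (2 - s).re := by
      rw [Complex.sub_re]
      norm_num
      linarith
    have h2 : AnalyticAt ℂ Complex.Gamma (2 - s) := by
      have hopen : IsOpen {z : ℂ | 0 < z.re} := isOpen_lt continuous_const Complex.continuous_re
      have hd : DifferentiableOn ℂ Complex.Gamma {z : ℂ | 0 < z.re} := by
        intro z hz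
        refine (Complex.differentiableAt_Gamma z fun m hm => ?_).differentiableWithinAt
        have hz' : 0 < z.re := hz
        rw [hm] at hz'
        simp at hz'
        have : (0 : ℝ) ≤ m := Nat.cast_nonneg m
        linarith
      exact hd.analyticAt (hopen.mem_nhds (by change 0 < (2 - s).re; linarith))
    exact h2.comp_of_eq (by fun_prop) rfl
  have hanp : ∀ (c : ℂ) (hc : c ≠ 0) (u : ℂ → ℂ), AnalyticAt ℂ u s →
      AnalyticAt ℂ (fun z => c ^ u z) s := by
    intro c hc u hu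
    have e : (fun z => c ^ u z) = fun z => Complex.exp (Complex.log c * u z) := by
      funext z
      rw [Complex.cpow_def_of_ne_zero hc]
    rw [e]
    exact (analyticAt_const.mul hu).cexp
  have hGi : AnalyticAt ℂ (fun z => (Complex.Gamma z)⁻¹) s :=
    Complex.differentiable_one_div_Gamma.analyticAt s
  have hA : AnalyticAt ℂ (fun z => (N : ℂ) ^ (-(z / 2)) * ((2 * Real.pi : ℂ) ^ z *
      (Complex.Gamma z)⁻¹) ^ d * (w * ((N : ℂ) ^ ((2 - z) / 2) *
        ((2 * Real.pi : ℂ) ^ (-(2 - z)) * Complex.Gamma (2 - z)) ^ d))) s := by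
    have a1 := hanp _ hN' (fun z => -(z / 2)) (by fun_prop)
    have a2 := hanp _ hpi (fun z => z) (by fun_prop)
    have a3 := hanp _ hN' (fun z => (2 - z) / 2) (by fun_prop)
    have a4 := hanp _ hpi (fun z => -(2 - z)) (by fun_prop)
    exact (a1.mul ((a2.mul hGi).pow d)).mul
      (analyticAt_const.mul (a3.mul ((a4.mul hanG).pow d)))
  have hr : meromorphicOrderAt (fun z => f (2 - z)) s = meromorphicOrderAt f (2 - s) := by
    have hd : deriv (fun z : ℂ => 2 - z) s ≠ 0 := by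
      have : HasDerivAt (fun z : ℂ => 2 - z) (-1) s := by
        simpa using (hasDerivAt_id s).const_sub 2
      rw [this.deriv]
      norm_num
    have h := meromorphicOrderAt_comp_of_deriv_ne_zero (f := f) (g := fun z : ℂ => 2 - z) (x := s)
      (by fun_prop) hd
    exact h
  have hmr : MeromorphicAt (fun z => f (2 - z)) s := by
    have h1 : MeromorphicAt f (2 - s) := hm _ (Set.mem_univ _)
    exact h1.comp_analyticAt (g := fun z : ℂ => 2 - z) (by fun_prop)
  rw [fun_meromorphicOrderAt_mul hA.meromorphicAt hmr, hr]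
  refine add_nonneg hA.meromorphicOrderAt_nonneg (hf _ ?_)
  rw [Complex.sub_re]
  norm_num
  linarith

/-- holomorphic to the right of the centre, and entire with the functional equation -/
theorem entire_of_lorder {F : Type} [Field F] [NumberField F] {E : WeierstrassCurve F}
    (hE : E.IsElliptic) (h : ∀ s₀ : ℂ, 1 ≤ s₀.re → ∃ k : ℤ, 0 ≤ k ∧ LOrder E s₀ k)
    {V : HeightOneSpectrum (𝓞 F) → WeierstrassCurve (𝓞 F)} (hV : MinimalModels E V) (d : ℕ) :
    (∃ f : ℂ → ℂ, Continues f (LS V) ∧ ∀ s : ℂ, 1 ≤ s.re → AnalyticAt ℂ f s) ∧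
      ∀ f : ℂ → ℂ, Continues f (LS V) → FunctionalEquation d f →
        ∃ g : ℂ → ℂ, Differentiable ℂ g ∧ ∀ s : ℂ, 3 / 2 < s.re → g s = LS V s := by
  have hpos : ∀ f : ℂ → ℂ, Continues f (LS V) → ∀ s : ℂ, 1 ≤ s.re →
      0 ≤ meromorphicOrderAt f s := by
    intro f hf s hs
    obtain ⟨k, hk, h1⟩ := h s hs
    rw [(hasOrder_iff hf).1 (h1 V hV)]
    exact_mod_cast hk
  obtain ⟨_, _, h1⟩ := h 1 (by simp)
  obtain ⟨f₀, hc, -⟩ := h1 V hV
  refine ⟨?_, fun f hf hfe => ?_⟩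
  · obtain ⟨g, hg, hg2⟩ := entire_of_order hE hV hc
    exact ⟨g, hg, fun s hs => hg2 s (hpos _ hc s hs)⟩
  · obtain ⟨g, hg, hg2⟩ := entire_of_order hE hV hf
    exact ⟨g, fun s => (hg2 s (hfe.nonneg hf.1 (hpos f hf) s)).differentiableAt, hg.2⟩

section
variable {K : Type} [Field K] [NumberField K] {M : Type} [Field M] [NumberField M] [Algebra K M]
  [IsGalois K M] {E : WeierstrassCurve K} {W : WeierstrassCurve (𝓞 K)} {s₀ : ℂ}
  {n : ((M ≃ₐ[K] M) → ℂ) → ℤ} {r : IntermediateField K M → ℤ}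

/-- the order over a field given abstractly -/
theorem Orders.eq_of_lorder (ho : Orders E W s₀ n r) (hE : E.IsElliptic) (F : IntermediateField K M)
    {k : ℤ} (hk : LOrder (E.map (algebraMap K F)) s₀ k) : r F = k := by
  have hEF : (E.map (algebraMap K F)).IsElliptic := inferInstance
  exact (ho.field F).unique hEF hk

theorem Orders.eq_of_lorder_top (ho : Orders E W s₀ n r) (hE : E.IsElliptic) (hW : IsModel E W)
    (hs : 1 ≤ s₀.re) (a : Automorphic M W s₀) {k : ℤ}
    (hk : LOrder (E.map (algebraMap K M)) s₀ k) : r ⊤ = k := by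
  have h1 := ho.bot hE hW hs a
  have h2 := (lorder_iff (F := M) (M := M) hE hW hs (cont_ind a (fixer K M M) 1) k).1 hk
  rw [fixer_self, h1] at h2
  exact_mod_cast h2

end

end Pool.Agent.Q7.RL
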