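import Pool.Agent.Q7.RL.Model
import Pool.Agent.Q7.CS.Art
import Pool.Agent.Q92.AR.Two

/-!
# Real L-functions of an elliptic curve over a solvable extension

The L-functions of the irreducible characters of subgroups, complex conjugation.
-/

set_option autoImplicit false
set_option linter.unusedSectionVars false

namespace Pool.Agent.Q7.RL

open NumberField IsDedekindDomain Filter Topology Pool.Agent.Q5.BR Pool.Agent.H541R3.ART
  Pool.Agent.W446.AS Pool.Agent.Q92.RT Pool.Agent.Q7.SZ Pool.Agent.Q7.TZ Pool.Agent.Q7.DB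
  Pool.Agent.H302R2 ComplexConjugate
open Pool.Agent.Q92.AR (inducedF inducedF_conj inducedF_pair meromorphicAt_conj)

section
variable {K : Type} [Field K] [NumberField K] (M : Type) [Field M] [NumberField M] [Algebra K M]

/-- The L-functions `L(E/M^H ⊗ ψ, s)` of the irreducible characters `ψ` of degree two of the subgroups
`H` of the Galois group, which are the functions `L(E ⊗ Ind ψ, s)`, have continuations without pole
at `s₀`. -/
def DegreeTwo (W : WeierstrassCurve (𝓞 K)) (s₀ : ℂ) : Prop :=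
  ∀ H : Subgroup (M ≃ₐ[K] M), ∀ ψ ∈ Irr H, ψ 1 = 2 →
    ∃ f : ℂ → ℂ, Continues f (twistedL M W (inducedF H ψ)) ∧ 0 ≤ meromorphicOrderAt f s₀

/-- The functional equations at the centre `s = 1` of the L-functions `L(E/M^H ⊗ ψ, s)` of the
symplectic irreducible characters `ψ` of the subgroups `H` of the Galois group, which are the
functions `L(E ⊗ Ind ψ, s)`: with a function `γ` which is analytic and not zero at `1` (the
exponential and Gamma factor and the omitted Euler factors), `γ(s) L(s) = γ(2 - s) L(2 - s)`. The root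
number is `1`. -/
def SymplecticEquations (W : WeierstrassCurve (𝓞 K)) : Prop :=
  ∀ H : Subgroup (M ≃ₐ[K] M), ∀ ψ ∈ Irr H, Sy ψ →
    ∃ γ : ℂ → ℂ, AnalyticAt ℂ γ 1 ∧ γ 1 ≠ 0 ∧
      (fun s => γ s * cont (twistedL M W (inducedF H ψ)) s) =ᶠ[𝓝[≠] 1]
        fun s => γ (2 - s) * cont (twistedL M W (inducedF H ψ)) (2 - s)

variable {M}

/-- the L-function of a class function with given multiplicities -/
theorem twistedL_class (W : WeierstrassCurve (𝓞 K)) {θ : (M ≃ₐ[K] M) → ℂ}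
    [Fintype (M ≃ₐ[K] M)]
    (hθ : ∀ g x : M ≃ₐ[K] M, θ (x * g * x⁻¹) = θ g) {m : ((M ≃ₐ[K] M) → ℂ) → ℕ}
    (hm : ∀ χ ∈ Irr (M ≃ₐ[K] M), ∑ g, θ g * χ g⁻¹ = (m χ : ℂ) * Nat.card (M ≃ₐ[K] M)) {s : ℂ}
    (hs : 3 / 2 < s.re) :
    twistedL M W θ s = ∏ χ ∈ irrF (M ≃ₐ[K] M), twistedL M W χ s ^ m χ := by
  rw [← twistedL_sum W (irrF (M ≃ₐ[K] M)) m (fun χ => χ) hs]
  congr 1
  funext g
  exact class_expand (m := fun χ => (m χ : ℂ)) hθ (fun χ hχ => hm χ hχ) g

theorem continues_class {W : WeierstrassCurve (𝓞 K)}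
    (h : ∀ χ ∈ Irr (M ≃ₐ[K] M), ∃ f : ℂ → ℂ, Continues f (twistedL M W χ))
    [Fintype (M ≃ₐ[K] M)] {θ : (M ≃ₐ[K] M) → ℂ}
    (hθ : ∀ g x : M ≃ₐ[K] M, θ (x * g * x⁻¹) = θ g) {m : ((M ≃ₐ[K] M) → ℂ) → ℕ}
    (hm : ∀ χ ∈ Irr (M ≃ₐ[K] M), ∑ g, θ g * χ g⁻¹ = (m χ : ℂ) * Nat.card (M ≃ₐ[K] M)) :
    Continues (fun s => ∏ χ ∈ irrF (M ≃ₐ[K] M), cont (twistedL M W χ) s ^ m χ)
      (twistedL M W θ) := by
  refine ⟨fun s hs => ?_, fun s hs => ?_⟩
  · exact MeromorphicAt.fun_prod fun χ hχ =>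
      ((cont_spec (h χ (mem_irrF.1 hχ))).1 s hs).fun_pow _
  · rw [twistedL_class W hθ hm hs]
    exact Finset.prod_congr rfl fun χ hχ => by rw [(cont_spec (h χ (mem_irrF.1 hχ))).2 s hs]

theorem sub_induce {W : WeierstrassCurve (𝓞 K)}
    (h : ∀ χ ∈ Irr (M ≃ₐ[K] M), ∃ f : ℂ → ℂ, Continues f (twistedL M W χ)) (s₀ : ℂ)
    (H : Subgroup (M ≃ₐ[K] M)) {ψ : H → ℂ} {m : ((M ≃ₐ[K] M) → ℂ) → ℕ}
    (hm : ∀ χ ∈ Irr (M ≃ₐ[K] M), ∑ᶠ h : H, χ h * ψ h⁻¹ = (m χ : ℂ) * (Nat.card H : ℂ)) :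
    cont (twistedL M W (inducedF H ψ)) =ᶠ[𝓝[≠] s₀]
      fun s => ∏ᶠ χ ∈ Irr (M ≃ₐ[K] M), cont (twistedL M W χ) s ^ m χ := by
  have : Fintype (M ≃ₐ[K] M) := Fintype.ofFinite _
  have h1 := continues_class h (fun g x => inducedF_conj H ψ g x)
    (fun χ hχ => inducedF_pair H ψ (fun g x => Irr.conj hχ g x) (hm χ hχ))
  have h2 := (cont_spec ⟨_, h1⟩).eventuallyEq h1 (fun _ _ => rfl) s₀
  filter_upwards [h2] with s hs
  rw [hs, finprod_mem_eq_finite_toFinset_prod _ (irr_finite (G := M ≃ₐ[K] M))]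
  rfl

/-! ### Complex conjugation -/

theorem twistedL_conj (W : WeierstrassCurve (𝓞 K)) (φ : (M ≃ₐ[K] M) → ℂ) (s : ℂ) :
    twistedL M W (fun g => conj (φ g)) s = conj (twistedL M W φ (conj s)) := by
  classical
  unfold twistedL
  rw [← Complex.exp_conj, Complex.conj_tsum]
  congr 1
  refine tsum_congr fun x => ?_
  unfold term
  split_ifs
  · rw [map_div₀, map_mul, map_mul, Complex.conj_natCast]
    congr 2
    · rw [map_intCast]
    · have h1 : ((x.2 + 1 : ℕ) : ℂ) * conj s = conj (((x.2 + 1 : ℕ) : ℂ) * s) := by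
        rw [map_mul, Complex.conj_natCast]
      rw [h1, Complex.cpow_conj _ _ (by
        rw [Complex.natCast_arg]
        exact Real.pi_ne_zero.symm), Complex.conj_conj, Complex.conj_natCast]
  · rw [map_zero]

theorem continues_conj {W : WeierstrassCurve (𝓞 K)} {f : ℂ → ℂ} {φ : (M ≃ₐ[K] M) → ℂ}
    (h : Continues f (twistedL M W φ)) :
    Continues (fun s => conj (f (conj s))) (twistedL M W fun g => conj (φ g)) := by
  refine ⟨fun s _ => meromorphicAt_conj (h.1 _ (Set.mem_univ _)), fun s hs => ?_⟩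
  rw [twistedL_conj]
  change conj (f (conj s)) = _
  rw [h.2 _ (by rwa [Complex.conj_re])]

section
variable {W : WeierstrassCurve (𝓞 K)} {s₀ : ℂ} [Group.IsSolvable (M ≃ₐ[K] M)]

/-- the L-functions of an elliptic curve over a solvable extension -/
noncomputable def curveData (a : Automorphic M W s₀) : ArtinData (M ≃ₐ[K] M) s₀ where
  L := (TwistData.ofCurve a).L
  Lin := (TwistData.ofCurve a).Lin
  mero := (TwistData.ofCurve a).mero
  hecke H ψ := (TwistData.ofCurve a).hol H ψ inferInstance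
  induce := (TwistData.ofCurve a).induce

theorem curveData_reflects (a : Automorphic M W s₀) : Reflects (curveData a) := by
  intro χ hχ
  have h1 := continues_conj (cont_spec (a.mero χ hχ))
  exact (cont_spec ⟨_, h1⟩).eventuallyEq h1 (fun _ _ => rfl) s₀

noncomputable def curveTwo (a : Automorphic M W s₀) (h : DegreeTwo M W s₀) :
    TwoDim (curveData a) where
  two H ψ := cont (twistedL M W (inducedF H ψ))
  holo H ψ hψ h1 := by
    obtain ⟨f, hf, hf2⟩ := h H ψ hψ h1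
    rw [(cont_spec ⟨f, hf⟩).order_eq hf (fun _ _ => rfl) s₀]
    exact hf2
  induce H ψ _ _ m hm := sub_induce a.mero s₀ H hm

end

open scoped Classical in
noncomputable def curveSymp {W : WeierstrassCurve (𝓞 K)} [Group.IsSolvable (M ≃ₐ[K] M)]
    (a : Automorphic M W 1) (h : SymplecticEquations M W) :
    Pool.Agent.Q7.CS.SympEq (curveData a) where
  symp H ψ := cont (twistedL M W (inducedF H ψ))
  gam H ψ := if hψ : ψ ∈ Irr H ∧ Sy ψ then (h H ψ hψ.1 hψ.2).choose else 1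
  gam_an H ψ hψ hs := by
    rw [dif_pos ⟨hψ, hs⟩]
    exact ⟨(h H ψ hψ hs).choose_spec.1, (h H ψ hψ hs).choose_spec.2.1⟩
  fe H ψ hψ hs := by
    rw [dif_pos ⟨hψ, hs⟩]
    exact (h H ψ hψ hs).choose_spec.2.2
  induce H ψ _ _ m hm := sub_induce a.mero 1 H hm

end

end Pool.Agent.Q7.RL
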